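import Pool.Agent.Helper8.PA.Defs
import Pool.Agent.Helper8.BR.Main

/-!
# BROU: Brouwer's inequality for `F2`, with equality; the Grone-Merris bound
-/

open Finset Matrix LapEn

namespace Pool.Agent.Helper8.PA

variable {V : Type*} [Fintype V] [DecidableEq V]
variable {P : Matrix V V ℝ} {k : ℕ}

theorem isSymm_of (h : IsPr P k) : P.IsSymm := by
  ext u v
  exact h.symm v u

theorem mul_self_of (h : IsPr P k) : P * P = P := by
  ext u v
  rw [Matrix.mul_apply]
  exact h.idem u v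

theorem trace_of (h : IsPr P k) : Matrix.trace P = k := h.tr

omit [Fintype V] [DecidableEq V] in
theorem dd_eq (u v : V) : dd P u v = BR.DD P u v := rfl

theorem dd_bounds (h : IsPr P k) (u v : V) : 0 ≤ dd P u v ∧ dd P u v ≤ 2 :=
  BR.DD_bounds P (isSymm_of h) (mul_self_of h) u v

theorem sum_max_le (h : IsPr P k) :
    ∑ u, ∑ v, max (dd P u v - 1) 0 ≤ (k : ℝ) * (k + 1) := by
  have := BR.proj_bound P (isSymm_of h) (mul_self_of h) h.one
  rw [trace_of h] at this
  exact this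

open scoped Classical in
theorem F2_term_le (G : SimpleGraph V) (u v : V) :
    (if G.Adj u v then dd P u v - 1 else 0) ≤ max (dd P u v - 1) 0 := by
  split_ifs
  · exact le_max_left _ _
  · exact le_max_right _ _

theorem F2_one_le (G : SimpleGraph V) (h : IsPr P k) : F2 G P 1 ≤ (k : ℝ) * (k + 1) := by
  classical
  refine le_trans ?_ (sum_max_le h)
  unfold F2
  exact Finset.sum_le_sum fun u _ => Finset.sum_le_sum fun v _ => F2_term_le G u v

/-- a double sum of nonnegative terms with nonpositive value -/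
theorem double_zero {f : V → V → ℝ} (hf : ∀ u v, 0 ≤ f u v) (hs : ∑ u, ∑ v, f u v ≤ 0) (u v : V) :
    f u v = 0 := by
  have h1 : ∑ u, ∑ v, f u v = 0 :=
    le_antisymm hs (Finset.sum_nonneg fun u _ => Finset.sum_nonneg fun v _ => hf u v)
  have h2 := (Finset.sum_eq_zero_iff_of_nonneg
    (fun u _ => Finset.sum_nonneg fun v _ => hf u v)).1 h1 u (Finset.mem_univ u)
  exact (Finset.sum_eq_zero_iff_of_nonneg (fun v _ => hf u v)).1 h2 v (Finset.mem_univ v)

/-- equality in the projection bound -/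
theorem min_eq_abs (h : IsPr P k) (he : ∑ u, ∑ v, max (dd P u v - 1) 0 = (k : ℝ) * (k + 1))
    (u v : V) : min (dd P u v) (2 - dd P u v) = |P u u - P v v| := by
  classical
  have hs := isSymm_of h
  have hP := mul_self_of h
  have hrow := h.one
  have hm : ∀ x y, min (BR.DD P x y) (2 - BR.DD P x y) = min (BR.DD P y x) (2 - BR.DD P y x) := by
    intro x y
    have : BR.DD P y x = BR.DD P x y := by rw [BR.DD, BR.DD, hs.apply x y]; ring
    rw [this]
  have hlayer := BR.layer (fun x y => min (BR.DD P x y) (2 - BR.DD P x y)) hm (fun x => P x x)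
    (fun U => BR.cut_ineq P hs hP hrow U) (fun x => P x x) (fun x => (BR.idem_diag P hs hP x).1)
  have h2 : ∑ x, ∑ y, (P x x - P y y) * (P x x - P y y) = ∑ x, ∑ y, (P x x - P y y) ^ 2 :=
    Finset.sum_congr rfl (fun x _ => Finset.sum_congr rfl (fun y _ => by ring))
  rw [h2] at hlayer
  have h4 : ∀ x y, 4 * max (BR.DD P x y - 1) 0
      = BR.DD P x y ^ 2 - (min (BR.DD P x y) (2 - BR.DD P x y)) ^ 2 := by
    intro x y
    rw [BR.min_eq_sub]
    rcases le_total (BR.DD P x y) 1 with h | h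
    · rw [max_eq_right (by linarith)]; ring
    · rw [max_eq_left (by linarith)]; ring
  have h5 : 4 * ∑ x, ∑ y, max (BR.DD P x y - 1) 0
      = ∑ x, ∑ y, BR.DD P x y ^ 2 - ∑ x, ∑ y, (min (BR.DD P x y) (2 - BR.DD P x y)) ^ 2 := by
    rw [Finset.mul_sum, ← Finset.sum_sub_distrib]
    refine Finset.sum_congr rfl (fun x _ => ?_)
    rw [Finset.mul_sum, ← Finset.sum_sub_distrib]
    exact Finset.sum_congr rfl (fun y _ => h4 x y)
  rw [BR.sum_sq_DD P hs hP hrow, trace_of h] at h5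
  have h6 : ∑ x, ∑ y, max (BR.DD P x y - 1) 0 = (k : ℝ) * (k + 1) := he
  rw [h6] at h5
  have h7 : ∑ x, ∑ y, (min (BR.DD P x y) (2 - BR.DD P x y) - |P x x - P y y|) ^ 2 =
      ∑ x, ∑ y, (min (BR.DD P x y) (2 - BR.DD P x y)) ^ 2
        - 2 * ∑ x, ∑ y, min (BR.DD P x y) (2 - BR.DD P x y) * |P x x - P y y|
        + ∑ x, ∑ y, (P x x - P y y) ^ 2 := by
    rw [Finset.mul_sum, ← Finset.sum_sub_distrib, ← Finset.sum_add_distrib]
    refine Finset.sum_congr rfl (fun x _ => ?_)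
    rw [Finset.mul_sum, ← Finset.sum_sub_distrib, ← Finset.sum_add_distrib]
    refine Finset.sum_congr rfl (fun y _ => ?_)
    rw [← sq_abs (P x x - P y y)]
    ring
  have h8 : ∑ x, ∑ y, (min (BR.DD P x y) (2 - BR.DD P x y) - |P x x - P y y|) ^ 2 ≤ 0 := by
    rw [h7]; linarith
  have h9 := double_zero (f := fun x y =>
    (min (BR.DD P x y) (2 - BR.DD P x y) - |P x x - P y y|) ^ 2) (fun x y => sq_nonneg _) h8 u v
  have h10 : min (BR.DD P u v) (2 - BR.DD P u v) - |P u u - P v v| = 0 := by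
    exact pow_eq_zero_iff (two_ne_zero) |>.1 h9
  rw [dd_eq]
  linarith

theorem shape_of_eq (G : SimpleGraph V) (h : IsPr P k) (he : F2 G P 1 = (k : ℝ) * (k + 1)) :
    Shape G P := by
  classical
  have h1 := sum_max_le h
  have h2 : F2 G P 1 ≤ ∑ u, ∑ v, max (dd P u v - 1) 0 := by
    unfold F2
    exact Finset.sum_le_sum fun u _ => Finset.sum_le_sum fun v _ => F2_term_le G u v
  have h3 : ∑ u, ∑ v, max (dd P u v - 1) 0 = (k : ℝ) * (k + 1) := by linarith
  have h4 : ∑ u, ∑ v, (max (dd P u v - 1) 0 - (if G.Adj u v then dd P u v - 1 else 0)) ≤ 0 := by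
    have : ∑ u, ∑ v, (max (dd P u v - 1) 0 - (if G.Adj u v then dd P u v - 1 else 0))
        = ∑ u, ∑ v, max (dd P u v - 1) 0 - F2 G P 1 := by
      unfold F2
      simp only [Finset.sum_sub_distrib]
    rw [this]; linarith
  have h5 := double_zero (f := fun u v =>
    max (dd P u v - 1) 0 - (if G.Adj u v then dd P u v - 1 else 0))
    (fun u v => sub_nonneg.2 (F2_term_le G u v)) h4
  intro u v _
  have h6 := min_eq_abs h h3 u v
  have h7 : max (dd P u v - 1) 0 - (if G.Adj u v then dd P u v - 1 else 0) = 0 := h5 u v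
  have h8 : dd P u v = P u u + P v v - 2 * P u v := rfl
  constructor
  · intro ha
    rw [if_pos ha] at h7
    have h9 : 0 ≤ dd P u v - 1 := by
      have := le_max_right (dd P u v - 1) 0
      linarith
    rw [min_eq_right (by linarith)] at h6
    rcases le_total (P u u) (P v v) with h10 | h10
    · rw [max_eq_right h10]
      rw [abs_of_nonpos (by linarith)] at h6
      linarith
    · rw [max_eq_left h10]
      rw [abs_of_nonneg (by linarith)] at h6
      linarith
  · intro ha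
    rw [if_neg ha] at h7
    have h9 : dd P u v - 1 ≤ 0 := by
      have := le_max_left (dd P u v - 1) 0
      linarith
    rw [min_eq_left (by linarith)] at h6
    rcases le_total (P u u) (P v v) with h10 | h10
    · rw [min_eq_left h10]
      rw [abs_of_nonpos (by linarith)] at h6
      linarith
    · rw [min_eq_right h10]
      rw [abs_of_nonneg (by linarith)] at h6
      linarith

theorem F2_zero_le (G : SimpleGraph V) [DecidableRel G.Adj] (h : IsPr P k) (U : Finset V) :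
    F2 G P 0 ≤ 2 * ((U.card : ℝ) * k + ∑ v ∈ Uᶜ, (G.degree v : ℝ)) := by
  classical
  set a : V → V → ℝ := fun u v => if G.Adj u v then 1 else 0 with ha
  have ha0 : ∀ u v, 0 ≤ a u v := fun u v => by simp only [ha]; split_ifs <;> norm_num
  have ha1 : ∀ u v, a u v ≤ 1 := fun u v => by simp only [ha]; split_ifs <;> norm_num
  have has : ∀ u v, a u v = a v u := fun u v => by simp only [ha, G.adj_comm u v]
  have hF : F2 G P 0 = ∑ u, ∑ v, a u v * dd P u v := by
    unfold F2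
    refine Finset.sum_congr rfl fun u _ => Finset.sum_congr rfl fun v _ => ?_
    simp only [ha]
    by_cases hh : G.Adj u v <;> simp [hh]
  have hsp : ∀ f : V → V → ℝ, ∑ u, ∑ v, f u v = ∑ u ∈ U, ∑ v ∈ U, f u v
      + ∑ u ∈ U, ∑ v ∈ Uᶜ, f u v + (∑ u ∈ Uᶜ, ∑ v ∈ U, f u v + ∑ u ∈ Uᶜ, ∑ v ∈ Uᶜ, f u v) := by
    intro f
    rw [← Finset.sum_add_sum_compl U, ← Finset.sum_add_distrib, ← Finset.sum_add_distrib]
    congr 1 <;>
    · refine Finset.sum_congr rfl fun u _ => ?_
      rw [← Finset.sum_add_sum_compl U]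
  have hb := dd_bounds h
  -- inside `U`
  have p1 : ∑ u ∈ U, ∑ v ∈ U, a u v * dd P u v
      ≤ 2 * (U.card : ℝ) * ∑ u ∈ U, P u u - 2 * ∑ u ∈ U, ∑ v ∈ U, P u v := by
    have e1 : ∑ u ∈ U, ∑ v ∈ U, dd P u v
        = 2 * (U.card : ℝ) * ∑ u ∈ U, P u u - 2 * ∑ u ∈ U, ∑ v ∈ U, P u v := by
      unfold dd
      simp only [Finset.sum_sub_distrib, Finset.sum_add_distrib, Finset.sum_const, nsmul_eq_mul,
        ← Finset.mul_sum]
      ring
    rw [← e1]
    refine Finset.sum_le_sum fun u _ => Finset.sum_le_sum fun v _ => ?_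
    exact mul_le_of_le_one_left (hb u v).1 (ha1 u v)
  have hcut := BR.cut_max P (isSymm_of h) (mul_self_of h) h.one U
  have p2 : ∑ u ∈ U, ∑ v ∈ Uᶜ, a u v * dd P u v
      ≤ ∑ u ∈ U, ∑ v ∈ Uᶜ, a u v + ((U.card : ℝ) * ∑ v ∈ Uᶜ, P v v
        + ∑ u ∈ U, ∑ v ∈ U, P u v) := by
    have : ∑ u ∈ U, ∑ v ∈ Uᶜ, a u v * dd P u v
        ≤ ∑ u ∈ U, ∑ v ∈ Uᶜ, (a u v + max (BR.DD P u v - 1) 0) := by
      refine Finset.sum_le_sum fun u _ => Finset.sum_le_sum fun v _ => ?_
      have e1 := le_max_left (BR.DD P u v - 1) 0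
      have e2 := le_max_right (BR.DD P u v - 1) 0
      rw [dd_eq]
      by_cases hh : G.Adj u v
      · simp only [ha, hh, if_true]; linarith
      · simp only [ha, hh, if_false]; linarith
    simp only [Finset.sum_add_distrib] at this
    linarith
  have p3 : ∑ u ∈ Uᶜ, ∑ v ∈ U, a u v * dd P u v = ∑ u ∈ U, ∑ v ∈ Uᶜ, a u v * dd P u v := by
    rw [Finset.sum_comm]
    refine Finset.sum_congr rfl fun u _ => Finset.sum_congr rfl fun v _ => ?_
    rw [has v u, dd_comm h v u]
  have p4 : ∑ u ∈ Uᶜ, ∑ v ∈ Uᶜ, a u v * dd P u v ≤ 2 * ∑ u ∈ Uᶜ, ∑ v ∈ Uᶜ, a u v := by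
    rw [Finset.mul_sum]
    refine Finset.sum_le_sum fun u _ => ?_
    rw [Finset.mul_sum]
    refine Finset.sum_le_sum fun v _ => ?_
    have e1 := mul_le_mul_of_nonneg_left (hb u v).2 (ha0 u v)
    linarith
  have hdeg : ∀ v, (G.degree v : ℝ) = ∑ u, a v u := by
    intro v
    rw [← lap_deg G v]
  have p5 : ∑ v ∈ Uᶜ, (G.degree v : ℝ) = ∑ u ∈ U, ∑ v ∈ Uᶜ, a u v
      + ∑ u ∈ Uᶜ, ∑ v ∈ Uᶜ, a u v := by
    rw [Finset.sum_comm (s := U), ← Finset.sum_add_distrib]
    refine Finset.sum_congr rfl fun v _ => ?_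
    rw [hdeg, ← Finset.sum_add_sum_compl U]
    congr 1
    exact Finset.sum_congr rfl fun u _ => has _ _
  have p6 : ∑ u ∈ U, P u u + ∑ v ∈ Uᶜ, P v v = k := by
    rw [Finset.sum_add_sum_compl U, h.tr]
  rw [hF, hsp, p5]
  have e1 : (U.card : ℝ) * (∑ u ∈ U, P u u + ∑ v ∈ Uᶜ, P v v) = U.card * k := by rw [p6]
  rw [p3]
  linarith

end Pool.Agent.Helper8.PA
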