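import Pool.Agent.LapEn.Lap

/-!
# Maximum Laplacian energy, all `n`: definitions

`Loc G P`: the vertex-local inequality valid for a spectral projection `P` of the Laplacian.
`Shape G P`: the shape of a projection with equality in Brouwer's inequality.
`PendEx G k`: `G` is a clique on `k + 1` vertices with pendant vertices at one vertex.
-/

open Finset Matrix LapEn

namespace Pool.Agent.Helper8.PA

variable {V : Type*} [Fintype V] [DecidableEq V]

/-- the local inequality of a spectral projection -/
def Loc (G : SimpleGraph V) [DecidableRel G.Adj] (P : Matrix V V ℝ) : Prop :=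
  ∀ α μ : ℝ, 0 ≤ α → α ≤ 1 → 0 < μ → ∀ v,
    α * (G.degree v : ℝ) - α ^ 2 / (4 * μ) * ((G.degree v : ℝ) ^ 2 + G.degree v)
      ≤ μ * P v v + ((G.degree v : ℝ) - (P * G.lapMatrix ℝ) v v)

/-- the shape of a projection with equality in Brouwer's inequality -/
def Shape (G : SimpleGraph V) (P : Matrix V V ℝ) : Prop :=
  ∀ u v, u ≠ v → (G.Adj u v → P u v = max (P u u) (P v v) - 1) ∧
    (¬ G.Adj u v → P u v = min (P u u) (P v v))

/-- a clique on `k + 1` vertices and pendant vertices at one vertex -/
def PendEx (G : SimpleGraph V) (k : ℕ) : Prop :=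
  ∃ (T : Finset V) (g : V → V), T.card = k + 1 ∧ (∀ v, v ∉ T → g v ∈ T) ∧
    (∀ v w, v ∉ T → w ∉ T → g v = g w) ∧ G = pend T g

end Pool.Agent.Helper8.PA
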