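import Mathlib

/-!
# DEGS: the degree part of the bound for connected graphs with few edges

`V` has `k + r` elements, `d` are the degrees (all `≥ 1`), `s` is the sum of the small Laplacian
eigenvalues, `m` the number of edges, `e v = k - d v` (truncated).

Proof (see /team-store/pineapple_alln.md, case 4b; `kb = r - 1`, `δ = k(k+1)/2 + kb - m ≥ 1`,
`γ = (k-r)/(k+r)`, `1 - γ = 2r/(k+r)`). Suppose `s ≤ kb - (1-γ) δ`.
1. `X = ∑ (d v - k) ≤ s`, so `Y = kb - X ≥ (1-γ) δ > 0`, in particular `X ≤ kb - 1`.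
2. `∑ e v = (k+r) k - 2 m + X = (k-1) kb + T` with `T = 2 δ - Y`.
3. `R'` = `r` vertices with the largest `e` (choose `R'` of card `r` with `e v ≤ e u` for `u ∈ R'`,
   `v ∉ R'`; a finset of card `r` maximising `∑ e` will do). All `u ∈ R'` have `d u ≤ k` (the number
   of `v` with `d v > k` is at most `X < r` and at most `k`; or: if `u ∈ R'` has `d u > k` then
   `e u = 0`, so all `v ∉ R'` have `e v = 0`...). `hEG` gives `∑_{R'} e ≤ (k-1) kb + δ`.
   Put `b = min_{R'} e`, `a = ∑_{R'} e - (k-1) kb`; `a ≤ δ`, and `e ≤ k - 1` gives `a ≤ b`.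
4. `e(e+1) ≤ b(b+1) + (k+b)(e-b)` for `b ≤ e ≤ k-1`; `e(e+1) ≤ (b+1) e` for `e ≤ b`. So
   `Z = ∑ e(e+1) - kb k (k-1) ≤ (b+1) T - (k-1)(b-a)`.
5. `Y ≤ kb` so `(1-γ) δ ≤ kb`, `T ≤ (1+γ) δ ≤ k - k/r ≤ k - 1`. So `Z ≤ (δ+1) max T 0`.
6. `hLoc` and the assumption give `Z ≥ A δ - 2 kb`, `A = 4 (k+1) r/(k+r)`.
   `δ = 1`: `T < 2`, so `T ≤ 1`, `Z ≤ 2 < A - 2 kb = 2 + 2r(2k+2-n)/n` (`n = k + r`).
   `δ ≥ 2`: `Z ≤ (1+γ) δ (δ+1)`; `H(δ) = A δ - 2 kb - (1+γ) δ (δ+1)` is concave,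
   `n H(2) = 2 (k (3r-5) - r² + 5r) > 0`, `H(n(r-1)/(2r)) > 0` iff `2r(2r-1) > (k+r)(r-1)`.
-/

open Finset

namespace Pool.Agent.Helper8.PA

/-- the numerical contradiction -/
theorem degs_num {k r δ X Z b a T : ℤ} (hr : 2 ≤ r) (hrk : r ≤ k) (hkr : k ≤ 3 * r) (hδ : 1 ≤ δ)
    (hX : 0 ≤ X) (I1 : (k + r) * X ≤ (k + r) * (r - 1) - 2 * r * δ)
    (hT : T = 2 * δ - (r - 1) + X) (hZ : Z ≤ (b + 1) * T - (k - 1) * (b - a)) (ha : a ≤ δ)
    (hab : a ≤ b) (hb : 0 ≤ b)
    (I2 : 4 * (k + 1) * r * δ - 2 * (k + r) * (r - 1) ≤ (k + r) * Z) : False := by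
  have hn : 0 < k + r := by linarith
  have hr0 : 0 < r := by linarith
  -- `2 r δ ≤ n (r - 1)`
  have h1 : 2 * r * δ ≤ (k + r) * (r - 1) := by
    have := mul_nonneg hn.le hX
    linarith
  -- `δ ≤ 2 r - 2`
  have h2 : δ ≤ 2 * r - 2 := by
    by_contra hcon
    push Not at hcon
    have e1 : 2 * r * (2 * r - 1) ≤ 2 * r * δ := mul_le_mul_of_nonneg_left (by linarith) (by linarith)
    have e2 : (k + r) * (r - 1) ≤ 4 * r * (r - 1) :=
      mul_le_mul_of_nonneg_right (by linarith) (by linarith)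
    nlinarith
  -- `n T ≤ 2 k δ`
  have h3 : (k + r) * T ≤ 2 * k * δ := by
    rw [hT]
    nlinarith
  -- `T ≤ k - 1`
  have h4 : T ≤ k - 1 := by
    by_contra hcon
    push Not at hcon
    have hTk : k ≤ T := by linarith
    have e1 : (k + r) * k ≤ 2 * k * δ := le_trans (mul_le_mul_of_nonneg_left hTk hn.le) h3
    have e2 : k + r ≤ 2 * δ := by
      have : k * (k + r) ≤ k * (2 * δ) := by linarith
      exact le_of_mul_le_mul_left this (by linarith)
    have e3 : r * (k + r) ≤ r * (2 * δ) := mul_le_mul_of_nonneg_left e2 hr0.le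
    nlinarith
  -- `Z ≤ (δ + 1) max T 0`
  have h5 : Z ≤ (δ + 1) * max T 0 := by
    rcases le_total T 0 with h | h
    · rw [max_eq_right h]
      have e1 : (b + 1) * T ≤ 0 := mul_nonpos_of_nonneg_of_nonpos (by linarith) h
      have e2 : 0 ≤ (k - 1) * (b - a) := mul_nonneg (by linarith) (by linarith)
      linarith
    · rw [max_eq_left h]
      rcases le_total b δ with h6 | h6
      · have e1 : (b + 1) * T ≤ (δ + 1) * T := mul_le_mul_of_nonneg_right (by linarith) h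
        have e2 : 0 ≤ (k - 1) * (b - a) := mul_nonneg (by linarith) (by linarith)
        linarith
      · have e1 : (k - 1) * (b - δ) ≤ (k - 1) * (b - a) :=
          mul_le_mul_of_nonneg_left (by linarith) (by linarith)
        have e2 : 0 ≤ (b - δ) * (k - 1 - T) := mul_nonneg (by linarith) (by linarith)
        nlinarith
  rcases eq_or_lt_of_le hδ with h6 | h6
  · -- `δ = 1`
    subst h6
    have h7 : T ≤ 1 := by
      by_contra hcon
      push Not at hcon
      have : (k + r) * 2 ≤ (k + r) * T := mul_le_mul_of_nonneg_left (by linarith) hn.le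
      linarith
    have h8 : Z ≤ 2 := by
      have : max T 0 ≤ 1 := max_le h7 (by norm_num)
      linarith
    have h9 : (k + r) * Z ≤ (k + r) * 2 := mul_le_mul_of_nonneg_left h8 hn.le
    have h10 : r * (k + r) < r * (2 * (k + 1)) := mul_lt_mul_of_pos_left (by linarith) hr0
    nlinarith
  · have h7 : 2 ≤ δ := by linarith
    have h8 : (k + r) * Z ≤ 2 * k * δ * (δ + 1) := by
      have e1 : (k + r) * max T 0 ≤ 2 * k * δ := by
        rcases le_total T 0 with h | h
        · rw [max_eq_right h, mul_zero]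
          have : 0 ≤ k * δ := mul_nonneg (by linarith) (by linarith)
          linarith
        · rw [max_eq_left h]; exact h3
      calc (k + r) * Z ≤ (k + r) * ((δ + 1) * max T 0) := mul_le_mul_of_nonneg_left h5 hn.le
        _ = (δ + 1) * ((k + r) * max T 0) := by ring
        _ ≤ (δ + 1) * (2 * k * δ) := mul_le_mul_of_nonneg_left e1 (by linarith)
        _ = 2 * k * δ * (δ + 1) := by ring
    -- `k δ (2r - 1 - δ) + 2 r δ ≤ n (r - 1)`
    have h9 : k * (δ * (2 * r - 1 - δ)) + 2 * r * δ ≤ (k + r) * (r - 1) := by nlinarith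
    rcases eq_or_lt_of_le h2 with h10 | h10
    · subst h10
      have e1 : k * ((2 * r - 2) * (2 * r - 1 - (2 * r - 2))) + 2 * r * (2 * r - 2)
          = (r - 1) * (2 * k + 4 * r) := by ring
      rw [e1] at h9
      have e2 : (r - 1) * (k + r) < (r - 1) * (2 * k + 4 * r) :=
        mul_lt_mul_of_pos_left (by linarith) (by linarith)
      linarith
    · have e1 : 0 ≤ (δ - 2) * (2 * r - 1 - δ - 2) := mul_nonneg (by linarith) (by linarith)
      have e2 : 4 * r - 6 ≤ δ * (2 * r - 1 - δ) := by nlinarith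
      have e3 : k * (4 * r - 6) ≤ k * (δ * (2 * r - 1 - δ)) :=
        mul_le_mul_of_nonneg_left e2 (by linarith)
      have e4 : 2 * r * 2 ≤ 2 * r * δ := mul_le_mul_of_nonneg_left h7 (by linarith)
      have e5 : r * (3 * r - 5) ≤ k * (3 * r - 5) := mul_le_mul_of_nonneg_right hrk (by linarith)
      nlinarith

/-- a set of `r` elements with the smallest values of `d` -/
theorem degs_min {V : Type*} [Fintype V] [DecidableEq V] {r : ℕ} (hr : r ≤ Fintype.card V)
    (d : V → ℕ) : ∃ R : Finset V, R.card = r ∧ ∀ u ∈ R, ∀ v, v ∉ R → d u ≤ d v := by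
  have hne : (univ.powersetCard r : Finset (Finset V)).Nonempty := by
    rw [Finset.powersetCard_nonempty]
    rwa [Finset.card_univ]
  obtain ⟨R, hR, hmin⟩ := Finset.exists_min_image (univ.powersetCard r) (fun R => ∑ v ∈ R, d v) hne
  rw [Finset.mem_powersetCard] at hR
  refine ⟨R, hR.2, fun u hu v hv => ?_⟩
  by_contra hcon
  push Not at hcon
  have hvu : v ∉ R.erase u := fun h => hv (Finset.mem_of_mem_erase h)
  have h1 : insert v (R.erase u) ∈ (univ.powersetCard r : Finset (Finset V)) := by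
    rw [Finset.mem_powersetCard]
    refine ⟨Finset.subset_univ _, ?_⟩
    rw [Finset.card_insert_of_notMem hvu, Finset.card_erase_of_mem hu, hR.2]
    have : 0 < R.card := Finset.card_pos.2 ⟨u, hu⟩
    omega
  have h2 := hmin _ h1
  rw [Finset.sum_insert hvu, ← Finset.add_sum_erase R d hu] at h2
  omega

theorem degs {V : Type*} [Fintype V] [DecidableEq V] {k r m : ℕ} {d : V → ℕ} {s : ℝ}
    (hn : Fintype.card V = k + r) (hr : 2 ≤ r) (hrk : r ≤ k) (hkr : k ≤ 3 * r)
    (hd : ∀ v, 1 ≤ d v) (hm : ∑ v, d v = 2 * m)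
    (hEG : ∀ R : Finset V, R.card = r → 2 * m ≤ k * (k - 1) + 2 * ∑ v ∈ R, d v)
    (hm0 : 2 * m < k * (k + 1) + 2 * (r - 1))
    (hGM : ∑ v, ((d v - k : ℕ) : ℝ) ≤ s)
    (hLoc : (k : ℝ) * (k + 1) * (r - 1) - ∑ v, ((k - d v : ℕ) : ℝ) * (((k - d v : ℕ) : ℝ) + 1)
      ≤ 2 * (k + 1) * s) :
    ((r : ℝ) - 1) - 2 * r / (k + r) * ((k : ℝ) * (k + 1) / 2 + (r - 1) - m) < s := by
  by_contra hcon
  push Not at hcon
  obtain ⟨c, hc⟩ := Nat.even_mul_succ_self k
  obtain ⟨δ, hδ, hmδ⟩ : ∃ δ : ℕ, 1 ≤ δ ∧ m + δ = c + (r - 1) := ⟨c + (r - 1) - m, by omega, by omega⟩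
  have hn0 : (0 : ℝ) < (k : ℝ) + r := by
    have : 0 < k + r := by omega
    exact_mod_cast this
  have hδr : (k : ℝ) * (k + 1) / 2 + (r - 1) - m = δ := by
    have e1 : ((k * (k + 1) : ℕ) : ℝ) = ((c + c : ℕ) : ℝ) := by exact_mod_cast hc
    have e2 : ((m + δ : ℕ) : ℝ) = ((c + (r - 1) : ℕ) : ℝ) := by exact_mod_cast hmδ
    rw [Nat.cast_add, Nat.cast_add, Nat.cast_sub (by omega)] at e2
    push_cast at e1 e2
    linarith
  rw [hδr] at hcon
  have hns : ((k : ℝ) + r) * s ≤ (k + r) * (r - 1) - 2 * r * δ := by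
    have := mul_le_mul_of_nonneg_left hcon hn0.le
    have e1 : ((k : ℝ) + r) * (((r : ℝ) - 1) - 2 * r / (k + r) * δ)
        = (k + r) * (r - 1) - 2 * r * δ := by
      field_simp
    rw [e1] at this
    exact this
  -- integers
  set e : V → ℤ := fun v => ((k - d v : ℕ) : ℤ) with he
  set X : ℤ := ∑ v, ((d v - k : ℕ) : ℤ) with hX
  have hX0 : 0 ≤ X := Finset.sum_nonneg fun v _ => Int.natCast_nonneg _
  have hXr : (X : ℝ) = ∑ v, ((d v - k : ℕ) : ℝ) := by rw [hX]; push_cast; rfl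
  have I1 : ((k : ℤ) + r) * X ≤ (k + r) * (r - 1) - 2 * r * δ := by
    have h1 : ((k : ℝ) + r) * X ≤ (k + r) * (r - 1) - 2 * r * δ := by
      refine le_trans (mul_le_mul_of_nonneg_left ?_ hn0.le) hns
      rw [hXr]; exact hGM
    exact_mod_cast h1
  have hΦ : ((∑ v, e v * (e v + 1) : ℤ) : ℝ)
      = ∑ v, ((k - d v : ℕ) : ℝ) * (((k - d v : ℕ) : ℝ) + 1) := by
    rw [he]; push_cast; rfl
  have I2' : ((k : ℤ) + r) * (k * (k + 1) * (r - 1) - ∑ v, e v * (e v + 1))
      ≤ 2 * (k + 1) * ((k + r) * (r - 1) - 2 * r * δ) := by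
    have h1 : ((k : ℝ) + r) * (k * (k + 1) * (r - 1) - ((∑ v, e v * (e v + 1) : ℤ) : ℝ))
        ≤ 2 * (k + 1) * ((k + r) * (r - 1) - 2 * r * δ) := by
      rw [hΦ]
      calc ((k : ℝ) + r) * (k * (k + 1) * (r - 1)
            - ∑ v, ((k - d v : ℕ) : ℝ) * (((k - d v : ℕ) : ℝ) + 1))
          ≤ ((k : ℝ) + r) * (2 * (k + 1) * s) := mul_le_mul_of_nonneg_left hLoc hn0.le
        _ = 2 * (k + 1) * (((k : ℝ) + r) * s) := by ring
        _ ≤ _ := mul_le_mul_of_nonneg_left hns (by positivity)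
    exact_mod_cast h1
  -- the set of the smallest degrees
  obtain ⟨R, hR, hRmin⟩ := degs_min (by omega : r ≤ Fintype.card V) d
  have hRc : Rᶜ.card = k := by rw [Finset.card_compl, hR, hn]; omega
  have hXlt : X < r - 1 := by
    by_contra h
    push Not at h
    have h1 : ((k : ℤ) + r) * (r - 1) ≤ (k + r) * X := mul_le_mul_of_nonneg_left h (by omega)
    have h2 : (0 : ℤ) < 2 * r * δ := by
      have : (0 : ℤ) < r := by omega
      have : (0 : ℤ) < δ := by omega
      positivity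
    linarith
  have hRk : ∀ u ∈ R, d u ≤ k := by
    intro u hu
    by_contra h
    push Not at h
    have h1 : (k : ℤ) ≤ X := by
      calc (k : ℤ) = ∑ _v ∈ Rᶜ, (1 : ℤ) := by rw [Finset.sum_const, hRc]; simp
        _ ≤ ∑ v ∈ Rᶜ, ((d v - k : ℕ) : ℤ) := by
          refine Finset.sum_le_sum fun v hv => ?_
          have := hRmin u hu v (Finset.mem_compl.1 hv)
          omega
        _ ≤ X := Finset.sum_le_sum_of_subset_of_nonneg (Finset.subset_univ _)
          fun v _ _ => Int.natCast_nonneg _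
    omega
  have hRne : R.Nonempty := by rw [← Finset.card_pos]; omega
  obtain ⟨u0, hu0, hmax⟩ := Finset.exists_max_image R d hRne
  have he0 : ∀ v, 0 ≤ e v := fun v => Int.natCast_nonneg _
  have he1 : ∀ v, e v ≤ k - 1 := fun v => by
    have := hd v
    simp only [he]
    omega
  have heR : ∀ v ∈ R, e v = k - d v := fun v hv => by
    have := hRk v hv
    simp only [he]
    omega
  have hb1 : ∀ v ∈ R, e u0 ≤ e v := fun v hv => by
    have := hmax v hv
    simp only [he]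
    omega
  have hb2 : ∀ v ∈ Rᶜ, e v ≤ e u0 := fun v hv => by
    have := hRmin u0 hu0 v (Finset.mem_compl.1 hv)
    simp only [he]
    omega
  -- sums
  have hse : ∑ v, e v = (k + r) * k - 2 * m + X := by
    have h1 : ∀ v, e v = k - d v + ((d v - k : ℕ) : ℤ) := fun v => by
      simp only [he]
      omega
    have h2 : ∑ v, (d v : ℤ) = 2 * m := by exact_mod_cast hm
    rw [Finset.sum_congr rfl fun v _ => h1 v, Finset.sum_add_distrib, Finset.sum_sub_distrib, h2,
      Finset.sum_const, Finset.card_univ, hn, nsmul_eq_mul]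
    push_cast
    ring
  have hsR : ∑ v ∈ R, e v = r * k - ∑ v ∈ R, (d v : ℤ) := by
    rw [Finset.sum_congr rfl heR, Finset.sum_sub_distrib, Finset.sum_const, hR, nsmul_eq_mul]
  have hEG' : 2 * (m : ℤ) ≤ k * (k - 1) + 2 * ∑ v ∈ R, (d v : ℤ) := by
    have h1 := hEG R hR
    have h2 : ((2 * m : ℕ) : ℤ) ≤ ((k * (k - 1) + 2 * ∑ v ∈ R, d v : ℕ) : ℤ) := by exact_mod_cast h1
    rw [Nat.cast_add, Nat.cast_mul, Nat.cast_mul, Nat.cast_mul, Nat.cast_sub (by omega)] at h2
    push_cast at h2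
    exact h2
  have hδz : 2 * (m : ℤ) + 2 * δ = k * (k + 1) + 2 * (r - 1) := by
    have e1 : (k : ℤ) * (k + 1) = c + c := by exact_mod_cast hc
    have e2 : (m : ℤ) + δ = c + (r - 1) := by omega
    rw [e1]; linarith
  have hle : ∑ v ∈ R, e v ≤ e u0 + (r - 1) * (k - 1) := by
    rw [← Finset.add_sum_erase R e hu0]
    have h1 : ∑ v ∈ R.erase u0, e v ≤ ∑ _v ∈ R.erase u0, ((k : ℤ) - 1) :=
      Finset.sum_le_sum fun v _ => he1 v
    rw [Finset.sum_const, Finset.card_erase_of_mem hu0, hR, nsmul_eq_mul, Nat.cast_sub (by omega)]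
      at h1
    push_cast at h1
    linarith
  have hΦle : ∑ v, e v * (e v + 1) ≤ r * (e u0 * (e u0 + 1))
      + (k + e u0) * (∑ v ∈ R, e v - r * e u0) + (e u0 + 1) * (∑ v, e v - ∑ v ∈ R, e v) := by
    have h1 : ∑ v ∈ R, e v * (e v + 1)
        ≤ ∑ v ∈ R, (e u0 * (e u0 + 1) + (k + e u0) * (e v - e u0)) := by
      refine Finset.sum_le_sum fun v hv => ?_
      have h2 : 0 ≤ (e v - e u0) * (k - 1 - e v) :=
        mul_nonneg (by linarith [hb1 v hv]) (by linarith [he1 v])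
      nlinarith
    have h3 : ∑ v ∈ Rᶜ, e v * (e v + 1) ≤ ∑ v ∈ Rᶜ, (e u0 + 1) * e v := by
      refine Finset.sum_le_sum fun v hv => ?_
      have h2 : 0 ≤ e v * (e u0 - e v) := mul_nonneg (he0 v) (by linarith [hb2 v hv])
      nlinarith
    have h4 : ∑ v ∈ Rᶜ, e v = ∑ v, e v - ∑ v ∈ R, e v := by
      rw [← Finset.sum_add_sum_compl R]; ring
    rw [← Finset.mul_sum, h4] at h3
    have h5 : ∑ v ∈ R, (e u0 * (e u0 + 1) + (k + e u0) * (e v - e u0))
        = r * (e u0 * (e u0 + 1)) + (k + e u0) * (∑ v ∈ R, e v - r * e u0) := by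
      rw [Finset.sum_add_distrib, Finset.sum_const, hR, nsmul_eq_mul, ← Finset.mul_sum,
        Finset.sum_sub_distrib, Finset.sum_const, hR, nsmul_eq_mul]
    rw [h5] at h1
    rw [← Finset.sum_add_sum_compl R fun v => e v * (e v + 1)]
    linarith
  refine degs_num (k := k) (r := r) (δ := δ) (X := X)
    (Z := ∑ v, e v * (e v + 1) - (r - 1) * (k * (k - 1))) (b := e u0)
    (a := ∑ v ∈ R, e v - (r - 1) * (k - 1)) (T := ∑ v, e v - (k - 1) * (r - 1))
    (by omega) (by omega) (by omega) (by omega) hX0 I1 ?_ ?_ ?_ ?_ (he0 u0) ?_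
  · rw [hse]; linarith
  · refine le_trans (sub_le_sub_right hΦle _) (le_of_eq ?_)
    ring
  · rw [hsR]; linarith
  · linarith
  · linarith [I2']

end Pool.Agent.Helper8.PA
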