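import Pool.Agent.LapEn.Facts
import Pool.Agent.Helper8.PA.Defs

/-!
# RIGID: equality in Brouwer's inequality

Proof (see /team-store/pineapple_alln.md, uniqueness). `p v = P v v`. For `u ≠ v`, `p u ≥ p v`,
`Δ = p u - p v`, `a w = P u w - P v w`: `∑_{w ≠ u,v} (a w)² = Δ (1 - Δ)`, `∑_{w ≠ u,v} a w = - Δ`
(for edges and for non-edges), hence `∑_{w ≠ u,v} a w (a w + 1 - Δ) = 0`.
EXTREME PAIR (`u = t` with `p` maximal, `v = b` with `p` minimal): a neighbour `w` of `b` which is
not a neighbour of `t` has `a w = 1`, impossible; `w ~ t`, `w` not `~ b`: `a w = -(1-Δ)`; the others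
have `a w ≥ 0`. So: `w` adjacent to neither: `p w = p b`; `w` adjacent to both: `p w = p t`.
(A) `rigid_dom`. (B) every vertex `b` with `p` minimal is pendant at `t`: a common neighbour `w` of
`t`, `b` has `p w = p t`, so it is dominating and has degree `n - 1 > k`, but `hX` and the degree
`n - 1` of `t` force all other degrees to be `≤ k`. (C) `u` = vertex of maximal `p` in `V - t`:
pair (`u`,`b`): `a t = 0`; `w ~ u`: `a w = -(1-Δ)`; `w` not `~ u`: `a w = p w - p b ≥ 0`, so all
non-neighbours of `u` have `p w = p b`, so they are pendant at `t`. `d u ≤ k`, so `G - t` has at most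
`k` non-isolated vertices and `k(k-1)/2` edges.
-/

open Finset Matrix LapEn

namespace Pool.Agent.Helper8.PA

variable {V : Type*} [Fintype V] [DecidableEq V]
variable {P : Matrix V V ℝ} {k : ℕ}

private theorem rg_sq (h : IsPr P k) (u v : V) :
    ∑ w, (P u w - P v w) ^ 2 = P u u + P v v - 2 * P u v := by
  have e : ∀ w, (P u w - P v w) ^ 2 = P u w ^ 2 + P v w ^ 2 - 2 * (P u w * P v w) := fun w => by ring
  rw [Finset.sum_congr rfl fun w _ => e w, Finset.sum_sub_distrib, Finset.sum_add_distrib,
    ← Finset.mul_sum, h.sum_sq u, h.sum_sq v, facts_mul h u v]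

private theorem rg_lin (h : IsPr P k) (u v : V) : ∑ w, (P u w - P v w) = 0 := by
  rw [Finset.sum_sub_distrib, h.one, h.one, sub_zero]

/-- the pair identity -/
private theorem rg_pair {G : SimpleGraph V} (h : IsPr P k) (hS : Shape G P) {u v : V} (huv : u ≠ v)
    (hp : P v v ≤ P u u) :
    ∑ w ∈ (univ.erase u).erase v, (P u w - P v w) * ((P u w - P v w) + 1 - (P u u - P v v)) = 0 := by
  have h1 : ∑ w, (P u w - P v w) * ((P u w - P v w) + 1 - (P u u - P v v))
      = P u u + P v v - 2 * P u v := by
    have e : ∀ w, (P u w - P v w) * ((P u w - P v w) + 1 - (P u u - P v v))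
        = (P u w - P v w) ^ 2 + (1 - (P u u - P v v)) * (P u w - P v w) := fun w => by ring
    rw [Finset.sum_congr rfl fun w _ => e w, Finset.sum_add_distrib, ← Finset.mul_sum,
      rg_sq h, rg_lin h]
    ring
  have h2 := Finset.add_sum_erase univ
    (fun w => (P u w - P v w) * ((P u w - P v w) + 1 - (P u u - P v v))) (Finset.mem_univ u)
  have h3 := Finset.add_sum_erase (univ.erase u)
    (fun w => (P u w - P v w) * ((P u w - P v w) + 1 - (P u u - P v v)))
    (Finset.mem_erase.2 ⟨huv.symm, Finset.mem_univ v⟩)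
  beta_reduce at h2 h3
  rw [h1] at h2
  rw [h.symm v u] at h2
  have hs := hS u v huv
  by_cases he : G.Adj u v
  · have h4 := hs.1 he
    rw [max_eq_left hp] at h4
    rw [h4] at h2 h3
    nlinarith
  · have h4 := hs.2 he
    rw [min_eq_right hp] at h4
    rw [h4] at h2 h3
    nlinarith

/-- all terms nonnegative: `a = 0` or `a = Δ - 1` -/
private theorem rg_ext {G : SimpleGraph V} (h : IsPr P k) (hS : Shape G P) {u v : V} (huv : u ≠ v)
    (hp : P v v ≤ P u u)
    (hn : ∀ w, w ≠ u → w ≠ v → (0 ≤ P u w - P v w ∨ P u w - P v w = P u u - P v v - 1))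
    {w : V} (hwu : w ≠ u) (hwv : w ≠ v) :
    P u w - P v w = 0 ∨ P u w - P v w = P u u - P v v - 1 := by
  have hd : P u u - P v v ≤ 1 := by linarith [h.le_one u, h.nonneg v]
  have hnn : ∀ x ∈ (univ.erase u).erase v,
      0 ≤ (P u x - P v x) * ((P u x - P v x) + 1 - (P u u - P v v)) := by
    intro x hx
    rw [Finset.mem_erase, Finset.mem_erase] at hx
    rcases hn x hx.2.1 hx.1 with h1 | h1
    · exact mul_nonneg h1 (by linarith)
    · rw [h1]
      have : (P u u - P v v - 1 + 1 - (P u u - P v v)) = 0 := by ring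
      rw [this, mul_zero]
  have h2 := (Finset.sum_eq_zero_iff_of_nonneg hnn).1 (rg_pair h hS huv hp) w
    (Finset.mem_erase.2 ⟨hwv, Finset.mem_erase.2 ⟨hwu, Finset.mem_univ w⟩⟩)
  rcases mul_eq_zero.1 h2 with h3 | h3
  · exact Or.inl h3
  · exact Or.inr (by linarith)

/-- the extreme pair -/
private theorem rg_extreme {G : SimpleGraph V} (h : IsPr P k) (hS : Shape G P) {t b : V}
    (htb : t ≠ b) (ht : ∀ v, P v v ≤ P t t) (hb : ∀ v, P b b ≤ P v v) {w : V} (hwt : w ≠ t)
    (hwb : w ≠ b) :
    (¬ G.Adj t w → ¬ G.Adj b w ∧ P w w = P b b) ∧ (G.Adj t w → G.Adj b w → P w w = P t t) := by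
  have hd : P t t - P b b ≤ 1 := by linarith [h.le_one t, h.nonneg b]
  -- values
  have c1 : ∀ x, x ≠ t → G.Adj t x → P t x = P t t - 1 := fun x hx e => by
    rw [(hS t x hx.symm).1 e, max_eq_left (ht x)]
  have c2 : ∀ x, x ≠ t → ¬ G.Adj t x → P t x = P x x := fun x hx e => by
    rw [(hS t x hx.symm).2 e, min_eq_right (ht x)]
  have c3 : ∀ x, x ≠ b → G.Adj b x → P b x = P x x - 1 := fun x hx e => by
    rw [(hS b x hx.symm).1 e, max_eq_right (hb x)]
  have c4 : ∀ x, x ≠ b → ¬ G.Adj b x → P b x = P b b := fun x hx e => by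
    rw [(hS b x hx.symm).2 e, min_eq_left (hb x)]
  have hn : ∀ x, x ≠ t → x ≠ b → (0 ≤ P t x - P b x ∨ P t x - P b x = P t t - P b b - 1) := by
    intro x hx hx'
    by_cases e1 : G.Adj t x <;> by_cases e2 : G.Adj b x
    · left
      rw [c1 x hx e1, c3 x hx' e2]
      linarith [ht x]
    · right
      rw [c1 x hx e1, c4 x hx' e2]
      ring
    · left
      rw [c2 x hx e1, c3 x hx' e2]
      linarith
    · left
      rw [c2 x hx e1, c4 x hx' e2]
      linarith [hb x]
  have key := rg_ext h hS htb (ht b) hn hwt hwb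
  refine ⟨fun e1 => ?_, fun e1 e2 => ?_⟩
  · have hnot : ¬ G.Adj b w := by
      intro e2
      rw [c2 w hwt e1, c3 w hwb e2] at key
      rcases key with h1 | h1 <;> linarith
    refine ⟨hnot, ?_⟩
    rw [c2 w hwt e1, c4 w hwb hnot] at key
    rcases key with h1 | h1
    · linarith
    · linarith [hb w]
  · rw [c1 w hwt e1, c3 w hwb e2] at key
    rcases key with h1 | h1
    · linarith
    · linarith [ht w]

private theorem rg_one (h : IsPr P k) (t : V) : P t t ≠ 1 := by
  intro e
  have h1 := h.sum_sq_erase t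
  rw [e] at h1
  have h2 : ∀ v ∈ univ.erase t, P t v = 0 := by
    intro v hv
    have h3 := (Finset.sum_eq_zero_iff_of_nonneg
      (fun v _ => sq_nonneg (P t v))).1 (h1.trans (by ring)) v hv
    exact pow_eq_zero_iff (two_ne_zero) |>.1 h3
  have h4 := Finset.add_sum_erase univ (fun v => P t v) (Finset.mem_univ t)
  beta_reduce at h4
  rw [Finset.sum_eq_zero h2, h.one t, e] at h4
  norm_num at h4

/-- a vertex with maximal `P t t` is adjacent to all others -/
theorem rigid_dom {G : SimpleGraph V} (hG : G.Connected) (h : IsPr P k) (hS : Shape G P)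
    {t : V} (ht : ∀ v, P v v ≤ P t t) {v : V} (hv : v ≠ t) : G.Adj t v := by
  by_contra hadj
  obtain ⟨b, -, hb⟩ := Finset.exists_min_image univ (fun v => P v v) ⟨t, Finset.mem_univ t⟩
  have hb' : ∀ w, P b b ≤ P w w := fun w => hb w (Finset.mem_univ w)
  have hvb : P v v = P b b := by
    by_cases h1 : v = b
    · rw [h1]
    · by_cases h2 : t = b
      · subst h2
        exact le_antisymm (ht v) (hb' v)
      · exact ((rg_extreme h hS h2 ht hb' hv h1).1 hadj).2
  have hvmin : ∀ w, P v v ≤ P w w := fun w => hvb ▸ hb' w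
  obtain ⟨w, hw⟩ : ∃ w, G.Adj v w := by
    obtain ⟨p⟩ := hG.preconnected v t
    cases p with
    | nil => exact absurd rfl hv
    | cons hh _ => exact ⟨_, hh⟩
  have hwv : w ≠ v := fun e => G.loopless.irrefl v (e ▸ hw)
  have hwt : w ≠ t := fun e => hadj (e ▸ hw.symm)
  have hx := rg_extreme h hS hv.symm ht hvmin hwt hwv
  have htw : G.Adj t w := by
    by_contra h3
    exact (hx.1 h3).1 hw
  have hpw : P w w = P t t := hx.2 htw hw
  have h5 : P t w = P t t - 1 := by
    rw [(hS t w hwt.symm).1 htw, max_eq_left (ht w)]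
  have h6 : P t v = P v v := by
    rw [(hS t v hv.symm).2 hadj, min_eq_right (ht v)]
  have h7 : P w v = P t t - 1 := by
    rw [(hS w v hwv).1 hw.symm, hpw, max_eq_left (ht v)]
  have h8 := rg_sq h t w
  rw [hpw, h5] at h8
  have h9 : (P t t - P w t) ^ 2 + ((P t w - P w w) ^ 2 + (P t v - P w v) ^ 2)
      ≤ ∑ x, (P t x - P w x) ^ 2 := by
    rw [← Finset.add_sum_erase univ (fun x => (P t x - P w x) ^ 2) (Finset.mem_univ t),
      ← Finset.add_sum_erase (univ.erase t) (fun x => (P t x - P w x) ^ 2)
        (Finset.mem_erase.2 ⟨hwt, Finset.mem_univ w⟩)]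
    have h10 := Finset.single_le_sum (f := fun x => (P t x - P w x) ^ 2)
      (s := (univ.erase t).erase w) (fun x _ => sq_nonneg _)
      (Finset.mem_erase.2 ⟨hwv.symm, Finset.mem_erase.2 ⟨hv, Finset.mem_univ v⟩⟩)
    beta_reduce at h10 ⊢
    linarith
  rw [h8, h.symm w t, h5, hpw, h6, h7] at h9
  have h11 : (P v v - (P t t - 1)) ^ 2 ≤ 0 := by nlinarith
  have h12 : P v v - (P t t - 1) = 0 := by
    have := le_antisymm h11 (sq_nonneg _)
    exact pow_eq_zero_iff (two_ne_zero) |>.1 this
  apply rg_one h t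
  linarith [h.le_one t, h.nonneg v]

theorem rigid_pend {G : SimpleGraph V} [DecidableRel G.Adj] (hG : G.Connected) (h : IsPr P k)
    (hS : Shape G P) (hk : 2 ≤ k) (hkn : k + 2 ≤ Fintype.card V)
    (hm : adjSum G = (k : ℝ) * (k + 1) + 2 * ((Fintype.card V : ℝ) - 1 - k))
    (hX : ∑ v, ((G.degree v - k : ℕ) : ℝ) ≤ (Fintype.card V : ℝ) - 1 - k) :
    PendEx G k := by
  classical
  set n := Fintype.card V with hn
  have hne : (univ : Finset V).Nonempty := by
    rw [Finset.univ_nonempty_iff]
    exact Fintype.card_pos_iff.1 (by omega)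
  obtain ⟨t, -, ht0⟩ := Finset.exists_max_image univ (fun v => P v v) hne
  have ht : ∀ v, P v v ≤ P t t := fun v => ht0 v (Finset.mem_univ v)
  obtain ⟨b, -, hb0⟩ := Finset.exists_min_image univ (fun v => P v v) hne
  have hb : ∀ v, P b b ≤ P v v := fun v => hb0 v (Finset.mem_univ v)
  -- degrees of dominating vertices
  have hdom : ∀ s, (∀ v, P v v ≤ P s s) → G.degree s = n - 1 := by
    intro s hs
    have e : G.neighborFinset s = univ.erase s := by
      ext v
      rw [SimpleGraph.mem_neighborFinset, Finset.mem_erase]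
      exact ⟨fun e => ⟨e.ne', Finset.mem_univ v⟩, fun e => rigid_dom hG h hS hs e.1⟩
    rw [← SimpleGraph.card_neighborFinset_eq_degree, e, Finset.card_erase_of_mem (Finset.mem_univ s),
      Finset.card_univ]
  have hdt := hdom t ht
  have hX' : ∑ v, (G.degree v - k) + 1 + k ≤ n := by
    have : (((∑ v, (G.degree v - k) : ℕ) : ℝ)) + 1 + k ≤ n := by
      push_cast
      linarith
    exact_mod_cast this
  have hdeg : ∀ v, v ≠ t → G.degree v ≤ k := by
    intro v hv
    have h1 := Finset.add_sum_erase univ (fun v => G.degree v - k) (Finset.mem_univ t)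
    have h2 := Finset.single_le_sum (f := fun v => G.degree v - k) (s := univ.erase t)
      (fun x _ => Nat.zero_le _) (Finset.mem_erase.2 ⟨hv, Finset.mem_univ v⟩)
    beta_reduce at h1 h2
    omega
  have htb : P b b < P t t := by
    by_contra hc
    push Not at hc
    obtain ⟨v, hv⟩ : ∃ v, v ≠ t := by
      have : 1 < Fintype.card V := by omega
      haveI := Fintype.one_lt_card_iff_nontrivial.1 this
      exact exists_ne t
    have h1 := hdom v (fun w => (ht w).trans (hc.trans (hb v)))
    have h2 := hdeg v hv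
    omega
  -- vertices with minimal `p` are pendant
  have hpend : ∀ v, P v v = P b b → ∀ w, w ≠ t → ¬ G.Adj v w := by
    intro v hv w hwt hvw
    have hvt : v ≠ t := by
      rintro rfl
      exact absurd hv htb.ne'
    have hvmin : ∀ x, P v v ≤ P x x := fun x => hv ▸ hb x
    have hwv : w ≠ v := hvw.ne'
    have h1 := (rg_extreme h hS hvt.symm ht hvmin hwt hwv).2 (rigid_dom hG h hS ht hwt) hvw
    have h2 := hdom w (fun x => h1 ▸ ht x)
    have h3 := hdeg w hwt
    omega
  -- the non-pendant vertices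
  set N : Finset V := (univ.erase t).filter (fun v => ∃ w, w ≠ t ∧ G.Adj v w) with hN
  have hNt : t ∉ N := by
    rw [hN, Finset.mem_filter]
    rintro ⟨h1, -⟩
    exact absurd rfl (Finset.mem_erase.1 h1).1
  have memN : ∀ v, v ∈ N ↔ v ≠ t ∧ ∃ w, w ≠ t ∧ G.Adj v w := by
    intro v
    rw [hN, Finset.mem_filter, Finset.mem_erase]
    simp
  have hNsub : ∀ v ∈ N, G.neighborFinset v ⊆ insert t (N.erase v) := by
    intro v hv x hx
    rw [SimpleGraph.mem_neighborFinset] at hx
    by_cases hxt : x = t
    · rw [hxt]; exact Finset.mem_insert_self _ _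
    · refine Finset.mem_insert_of_mem (Finset.mem_erase.2 ⟨hx.ne', (memN x).2 ⟨hxt, v, ?_, hx.symm⟩⟩)
      exact ((memN v).1 hv).1
  have hcard : ∀ v ∈ N, (insert t (N.erase v)).card = N.card := by
    intro v hv
    rw [Finset.card_insert_of_notMem (fun h => hNt (Finset.mem_of_mem_erase h)),
      Finset.card_erase_of_mem hv]
    have := Finset.card_pos.2 ⟨v, hv⟩
    omega
  have hdN : ∀ v ∈ N, G.degree v ≤ N.card := by
    intro v hv
    rw [← SimpleGraph.card_neighborFinset_eq_degree, ← hcard v hv]
    exact Finset.card_le_card (hNsub v hv)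
  have hone : ∀ v ∈ (univ.erase t).filter (fun v => ¬ ∃ w, w ≠ t ∧ G.Adj v w), G.degree v = 1 := by
    intro v hv
    rw [Finset.mem_filter, Finset.mem_erase] at hv
    have e : G.neighborFinset v = {t} := by
      ext x
      rw [SimpleGraph.mem_neighborFinset, Finset.mem_singleton]
      constructor
      · intro hx
        by_contra hxt
        exact hv.2 ⟨x, hxt, hx⟩
      · rintro rfl
        exact (rigid_dom hG h hS ht hv.1.1).symm
    rw [← SimpleGraph.card_neighborFinset_eq_degree, e, Finset.card_singleton]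
  have hsum : ∑ v, G.degree v + 2 * k + 2 = k * (k + 1) + 2 * n := by
    rw [adjSum_eq_deg] at hm
    have : (((∑ v, G.degree v : ℕ) : ℝ)) + 2 * k + 2 = k * (k + 1) + 2 * n := by
      push_cast
      linarith
    exact_mod_cast this
  have hsplit : ∑ v, G.degree v = (n - 1) + (∑ v ∈ N, G.degree v + (n - 1 - N.card)) := by
    rw [← Finset.add_sum_erase univ (fun v => G.degree v) (Finset.mem_univ t)]
    beta_reduce
    rw [hdt]
    congr 1
    rw [← Finset.sum_filter_add_sum_filter_not (univ.erase t) (fun v => ∃ w, w ≠ t ∧ G.Adj v w)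
      (fun v => G.degree v)]
    rw [Finset.sum_congr rfl hone, Finset.sum_const, smul_eq_mul, mul_one]
    congr 1
    have h1 := Finset.card_filter_add_card_filter_not (s := univ.erase t)
      (fun v => ∃ w, w ≠ t ∧ G.Adj v w)
    rw [Finset.card_erase_of_mem (Finset.mem_univ t), Finset.card_univ] at h1
    have h2 : N.card = ((univ.erase t).filter (fun v => ∃ w, w ≠ t ∧ G.Adj v w)).card := by rw [hN]
    omega
  have hNcard : N.card ≤ n - 1 := by
    have h1 : N ⊆ univ.erase t := Finset.filter_subset _ _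
    have := Finset.card_le_card h1
    rwa [Finset.card_erase_of_mem (Finset.mem_univ t), Finset.card_univ] at this
  have hsN : ∑ v ∈ N, G.degree v + k = k * k + N.card := by
    have e : k * (k + 1) = k * k + k := by ring
    rw [e] at hsum
    omega
  have hsN' : ∑ v ∈ N, G.degree v ≤ N.card * N.card := by
    have := Finset.sum_le_card_nsmul N (fun v => G.degree v) N.card hdN
    simpa using this
  -- at least `k` non-pendant vertices
  have hkN : k ≤ N.card := by
    by_contra hc
    push Not at hc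
    obtain ⟨q, hq⟩ : ∃ q, k = N.card + 1 + q := ⟨k - N.card - 1, by omega⟩
    have h1 : k * k ≤ N.card * N.card + (k - N.card) := by omega
    have h2 : k - N.card = 1 + q := by omega
    rw [h2, hq] at h1
    have h3 : (N.card + 1 + q) * (N.card + 1 + q) =
        N.card * N.card + 2 * (N.card * (1 + q)) + (1 + q) * (1 + q) := by ring
    rw [h3] at h1
    have h4 : (1 + q) * (1 + q) = 1 + 2 * q + q * q := by ring
    rw [h4] at h1
    have h5 : N.card * (1 + q) = N.card + N.card * q := by ring
    rw [h5] at h1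
    have h6 : N.card = 0 ∧ q = 0 := by
      constructor
      · omega
      · have : 0 ≤ q * q := Nat.zero_le _
        omega
    omega
  -- at most `k` non-pendant vertices
  have hNk : N.card ≤ k := by
    have hNne : N.Nonempty := Finset.card_pos.1 (by omega)
    obtain ⟨v0, hv0⟩ := hNne
    obtain ⟨u, hu, humax⟩ := Finset.exists_max_image (univ.erase t) (fun v => P v v)
      ⟨v0, Finset.mem_erase.2 ⟨((memN v0).1 hv0).1, Finset.mem_univ _⟩⟩
    have hut : u ≠ t := (Finset.mem_erase.1 hu).1
    have humax' : ∀ w, w ≠ t → P w w ≤ P u u := fun w hw =>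
      humax w (Finset.mem_erase.2 ⟨hw, Finset.mem_univ w⟩)
    have hub : P b b < P u u := by
      refine lt_of_lt_of_le (lt_of_le_of_ne (hb v0) ?_) (humax' v0 ((memN v0).1 hv0).1)
      intro e
      obtain ⟨-, w, hw, hvw⟩ := (memN v0).1 hv0
      exact hpend v0 e.symm w hw hvw
    have hbt : b ≠ t := by
      intro e
      rw [e] at htb
      exact lt_irrefl _ htb
    have hbu : u ≠ b := by
      intro e
      rw [e] at hub
      exact lt_irrefl _ hub
    have hd : P u u - P b b ≤ 1 := by linarith [h.le_one u, h.nonneg b]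
    have c0 : P u t - P b t = 0 := by
      rw [(hS u t hut).1 (rigid_dom hG h hS ht hut).symm,
        (hS b t hbt).1 (rigid_dom hG h hS ht hbt).symm, max_eq_right (ht u), max_eq_right (ht b)]
      ring
    have c1 : ∀ x, x ≠ t → x ≠ b → P b x = P b b := fun x hx hxb => by
      rw [(hS b x hxb.symm).2 (hpend b rfl x hx), min_eq_left (hb x)]
    have c2 : ∀ x, x ≠ t → x ≠ u → G.Adj u x → P u x = P u u - 1 := fun x hx hxu e => by
      rw [(hS u x hxu.symm).1 e, max_eq_left (humax' x hx)]
    have c3 : ∀ x, x ≠ t → x ≠ u → ¬ G.Adj u x → P u x = P x x := fun x hx hxu e => by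
      rw [(hS u x hxu.symm).2 e, min_eq_right (humax' x hx)]
    have hn' : ∀ x, x ≠ u → x ≠ b → (0 ≤ P u x - P b x ∨ P u x - P b x = P u u - P b b - 1) := by
      intro x hxu hxb
      by_cases hxt : x = t
      · rw [hxt]
        exact Or.inl c0.ge
      · by_cases e : G.Adj u x
        · right
          rw [c2 x hxt hxu e, c1 x hxt hxb]
          ring
        · left
          rw [c3 x hxt hxu e, c1 x hxt hxb]
          linarith [hb x]
    have hsub : N ⊆ insert u ((G.neighborFinset u).erase t) := by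
      intro v hv
      by_cases hvu : v = u
      · rw [hvu]; exact Finset.mem_insert_self _ _
      · obtain ⟨hvt, w, hw, hvw⟩ := (memN v).1 hv
        refine Finset.mem_insert_of_mem (Finset.mem_erase.2 ⟨hvt, ?_⟩)
        rw [SimpleGraph.mem_neighborFinset]
        by_contra e
        have hvb : v ≠ b := by
          rintro rfl
          exact hpend v rfl w hw hvw
        have h1 := rg_ext h hS hbu hub.le hn' hvu hvb
        rw [c3 v hvt hvu e, c1 v hvt hvb] at h1
        have h2 : P v v = P b b := by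
          rcases h1 with h1 | h1
          · linarith
          · linarith [hb v]
        exact hpend v h2 w hw hvw
    have h1 := Finset.card_le_card hsub
    have h2 := Finset.card_insert_le u ((G.neighborFinset u).erase t)
    have h3 : ((G.neighborFinset u).erase t).card = G.degree u - 1 := by
      rw [Finset.card_erase_of_mem, SimpleGraph.card_neighborFinset_eq_degree]
      rw [SimpleGraph.mem_neighborFinset]
      exact (rigid_dom hG h hS ht hut).symm
    have h4 := hdeg u hut
    have h5 : 0 < G.degree u := by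
      rw [← SimpleGraph.card_neighborFinset_eq_degree, Finset.card_pos]
      refine ⟨t, ?_⟩
      rw [SimpleGraph.mem_neighborFinset]
      exact (rigid_dom hG h hS ht hut).symm
    omega
  have hNe : N.card = k := le_antisymm hNk hkN
  rw [hNe] at hsN
  have hdk : ∀ v ∈ N, G.degree v = k := by
    intro v hv
    by_contra hc
    have h1 : G.degree v < k := lt_of_le_of_ne (hNe ▸ hdN v hv) hc
    have h2 : ∑ v ∈ N, G.degree v < ∑ v ∈ N, k :=
      Finset.sum_lt_sum (fun x hx => hNe ▸ hdN x hx) ⟨v, hv, h1⟩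
    rw [Finset.sum_const, smul_eq_mul, hNe] at h2
    omega
  have hcl : ∀ v ∈ N, ∀ w ∈ N, v ≠ w → G.Adj v w := by
    intro v hv w hw hvw
    have h1 : G.neighborFinset v = insert t (N.erase v) := by
      refine Finset.eq_of_subset_of_card_le (hNsub v hv) ?_
      rw [hcard v hv, SimpleGraph.card_neighborFinset_eq_degree, hdk v hv, hNe]
    rw [← SimpleGraph.mem_neighborFinset, h1]
    exact Finset.mem_insert_of_mem (Finset.mem_erase.2 ⟨hvw.symm, hw⟩)
  refine ⟨insert t N, fun _ => t, ?_, fun v _ => Finset.mem_insert_self _ _, fun _ _ _ _ => rfl, ?_⟩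
  · rw [Finset.card_insert_of_notMem hNt, hNe]
  · ext u v
    show G.Adj u v ↔ u ≠ v ∧ ((u ∈ insert t N ∧ v ∈ insert t N) ∨ (u ∉ insert t N ∧ v = t) ∨
      (v ∉ insert t N ∧ u = t))
    constructor
    · intro e
      refine ⟨e.ne, ?_⟩
      by_cases hut : u = t
      · by_cases hv : v ∈ insert t N
        · exact Or.inl ⟨by rw [hut]; exact Finset.mem_insert_self _ _, hv⟩
        · exact Or.inr (Or.inr ⟨hv, hut⟩)
      · by_cases hvt : v = t
        · by_cases hu : u ∈ insert t N
          · exact Or.inl ⟨hu, by rw [hvt]; exact Finset.mem_insert_self _ _⟩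
          · exact Or.inr (Or.inl ⟨hu, hvt⟩)
        · exact Or.inl ⟨Finset.mem_insert_of_mem ((memN u).2 ⟨hut, v, hvt, e⟩),
            Finset.mem_insert_of_mem ((memN v).2 ⟨hvt, u, hut, e.symm⟩)⟩
    · rintro ⟨hne', ⟨hu, hv⟩ | ⟨hu, rfl⟩ | ⟨hv, rfl⟩⟩
      · rw [Finset.mem_insert] at hu hv
        rcases hu with rfl | hu
        · exact rigid_dom hG h hS ht hne'.symm
        · rcases hv with rfl | hv
          · exact (rigid_dom hG h hS ht hne').symm
          · exact hcl u hu v hv hne'
      · exact (rigid_dom hG h hS ht hne').symm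
      · exact rigid_dom hG h hS ht hne'.symm

end Pool.Agent.Helper8.PA
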