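import Pool.Agent.LapEn.Red
import Pool.Agent.LapEn.PineB
import Pool.Agent.LapEn.Iso
import Pool.Agent.Helper8.PA.Brou
import Pool.Agent.Helper8.PA.Rigid

/-!
# SMALL: connected graphs on 4 vertices

`lapEnergy G ≤ 6` with equality exactly for the paw `pineapple 4 3`, `K_4 = pineapple 4 4` and
`K_4 - e`.
-/

open Finset Matrix LapEn

namespace Pool.Agent.Helper8.PA

/-- `K_4` without the edge `01` -/
def diamond : SimpleGraph (Fin 4) where
  Adj u v := u ≠ v ∧ (2 ≤ u.val ∨ 2 ≤ v.val)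
  symm := ⟨fun u v ⟨h1, h2⟩ => ⟨h1.symm, h2.symm⟩⟩
  loopless := ⟨fun u h1 => h1.1 rfl⟩

/-- a graph on `Fin 4` from six Booleans -/
def sB (a b c d e f : Bool) (i j : Fin 4) : Bool :=
  match i.val, j.val with
  | 0, 1 => a | 1, 0 => a
  | 0, 2 => b | 2, 0 => b
  | 0, 3 => c | 3, 0 => c
  | 1, 2 => d | 2, 1 => d
  | 1, 3 => e | 3, 1 => e
  | 2, 3 => f | 3, 2 => f
  | _, _ => false

def sPaw (i j : Fin 4) : Bool := decide (i ≠ j ∧ ((i.val < 3 ∧ j.val < 3) ∨ i.val = 0 ∨ j.val = 0))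
def sK (i j : Fin 4) : Bool := decide (i ≠ j)
def sD (i j : Fin 4) : Bool := decide (i ≠ j ∧ (2 ≤ i.val ∨ 2 ≤ j.val))

theorem s_class : ∀ a b c d e f : Bool,
    (∃ t : Fin 4, ∀ v, v ≠ t → sB a b c d e f t v = true) →
    (∃ t u v w : Fin 4, t ≠ u ∧ t ≠ v ∧ t ≠ w ∧ u ≠ v ∧ u ≠ w ∧ v ≠ w ∧
      sB a b c d e f t u = true ∧ sB a b c d e f t v = true ∧ sB a b c d e f t w = true ∧
      sB a b c d e f u v = true) →
    ∃ p : Fin 4 × Fin 4 × Fin 4 × Fin 4,
      p.1 ≠ p.2.1 ∧ p.1 ≠ p.2.2.1 ∧ p.1 ≠ p.2.2.2 ∧ p.2.1 ≠ p.2.2.1 ∧ p.2.1 ≠ p.2.2.2 ∧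
        p.2.2.1 ≠ p.2.2.2 ∧
      ((∀ i j, sB a b c d e f (![p.1, p.2.1, p.2.2.1, p.2.2.2] i)
          (![p.1, p.2.1, p.2.2.1, p.2.2.2] j) = sPaw i j) ∨
        (∀ i j, sB a b c d e f (![p.1, p.2.1, p.2.2.1, p.2.2.2] i)
          (![p.1, p.2.1, p.2.2.1, p.2.2.2] j) = sK i j) ∨
        (∀ i j, sB a b c d e f (![p.1, p.2.1, p.2.2.1, p.2.2.2] i)
          (![p.1, p.2.1, p.2.2.1, p.2.2.2] j) = sD i j)) := by
  decide +kernel

/-- transfer of `s_class` to graphs -/
theorem s_graph (G : SimpleGraph (Fin 4)) {t : Fin 4} (ht : ∀ v, v ≠ t → G.Adj t v)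
    {u v : Fin 4} (hut : u ≠ t) (hvt : v ≠ t) (huv : G.Adj u v) :
    Nonempty (G ≃g pineapple 4 3) ∨ Nonempty (G ≃g pineapple 4 4) ∨ Nonempty (G ≃g diamond) := by
  classical
  set B : Fin 4 → Fin 4 → Bool := sB (decide (G.Adj 0 1)) (decide (G.Adj 0 2))
    (decide (G.Adj 0 3)) (decide (G.Adj 1 2)) (decide (G.Adj 1 3)) (decide (G.Adj 2 3)) with hB
  have hBG : ∀ i j, B i j = true ↔ G.Adj i j := by
    intro i j
    fin_cases i <;> fin_cases j <;> simp [hB, sB] <;> exact G.adj_comm _ _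
  have h1 : ∃ t : Fin 4, ∀ v, v ≠ t → B t v = true := ⟨t, fun v hv => (hBG _ _).2 (ht v hv)⟩
  obtain ⟨w, hw⟩ : ∃ w : Fin 4, w ≠ t ∧ w ≠ u ∧ w ≠ v := by
    have h2 : ∀ a b c : Fin 4, ∃ w : Fin 4, w ≠ a ∧ w ≠ b ∧ w ≠ c := by decide
    exact h2 t u v
  have h2 : ∃ t u v w : Fin 4, t ≠ u ∧ t ≠ v ∧ t ≠ w ∧ u ≠ v ∧ u ≠ w ∧ v ≠ w ∧
      B t u = true ∧ B t v = true ∧ B t w = true ∧ B u v = true :=
    ⟨t, u, v, w, hut.symm, hvt.symm, hw.1.symm, huv.ne, hw.2.1.symm, hw.2.2.symm,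
      (hBG _ _).2 (ht u hut), (hBG _ _).2 (ht v hvt), (hBG _ _).2 (ht w hw.1), (hBG _ _).2 huv⟩
  obtain ⟨⟨p0, p1, p2, p3⟩, n1, n2, n3, n4, n5, n6, hp⟩ := s_class _ _ _ _ _ _ h1 h2
  simp only at n1 n2 n3 n4 n5 n6 hp
  have hinj : Function.Injective (![p0, p1, p2, p3] : Fin 4 → Fin 4) := by
    intro i j hij
    fin_cases i <;> fin_cases j <;> simp at hij <;> first
      | rfl
      | exact absurd hij n1
      | exact absurd hij n2
      | exact absurd hij n3
      | exact absurd hij n4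
      | exact absurd hij n5
      | exact absurd hij n6
      | exact absurd hij.symm n1
      | exact absurd hij.symm n2
      | exact absurd hij.symm n3
      | exact absurd hij.symm n4
      | exact absurd hij.symm n5
      | exact absurd hij.symm n6
  let σ : Fin 4 ≃ Fin 4 := Equiv.ofBijective _ ⟨hinj, Finite.surjective_of_injective hinj⟩
  rcases hp with hp | hp | hp
  · refine Or.inl ⟨(RelIso.symm ⟨σ, fun {i j} => ?_⟩ : G ≃g pineapple 4 3)⟩
    have h3 : B (σ i) (σ j) = sPaw i j := hp i j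
    rw [← hBG, h3]
    simp [sPaw, pineapple]
  · refine Or.inr (Or.inl ⟨(RelIso.symm ⟨σ, fun {i j} => ?_⟩ : G ≃g pineapple 4 4)⟩)
    have h3 : B (σ i) (σ j) = sK i j := hp i j
    rw [← hBG, h3]
    simp only [sK, decide_eq_true_eq]
    show i ≠ j ↔ (i ≠ j ∧ ((i.val < 4 ∧ j.val < 4) ∨ i.val = 0 ∨ j.val = 0))
    exact ⟨fun h => ⟨h, Or.inl ⟨i.isLt, j.isLt⟩⟩, fun h => h.1⟩
  · refine Or.inr (Or.inr ⟨(RelIso.symm ⟨σ, fun {i j} => ?_⟩ : G ≃g diamond)⟩)
    have h3 : B (σ i) (σ j) = sD i j := hp i j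
    rw [← hBG, h3]
    simp [sD, diamond]

/-- the projection for the diamond -/
noncomputable def sP : Matrix (Fin 4) (Fin 4) ℝ :=
  !![1/4, 1/4, -1/4, -1/4; 1/4, 1/4, -1/4, -1/4; -1/4, -1/4, 3/4, -1/4; -1/4, -1/4, -1/4, 3/4]

theorem sP_pr : IsPr sP 2 := by
  refine ⟨fun u v => ?_, fun u v => ?_, ?_, fun u => ?_⟩
  · fin_cases u <;> fin_cases v <;> simp [sP]
  · fin_cases u <;> fin_cases v <;> simp [sP, Fin.sum_univ_four] <;> norm_num
  · simp [sP, Fin.sum_univ_four]; norm_num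
  · fin_cases u <;> simp [sP, Fin.sum_univ_four] <;> norm_num

theorem sP_F2 : F2 diamond sP (2 * (2 : ℕ) / Fintype.card (Fin 4)) = 6 := by
  unfold F2
  simp only [Fin.sum_univ_four, diamond, dd, sP]
  simp
  norm_num

theorem small4 (G : SimpleGraph (Fin 4)) [DecidableRel G.Adj] (hG : G.Connected) :
    lapEnergy G ≤ 6 ∧ (lapEnergy G = 6 ↔
      Nonempty (G ≃g pineapple 4 3) ∨ Nonempty (G ≃g pineapple 4 4) ∨
        Nonempty (G ≃g diamond)) := by
  classical
  have hup : lapEnergy G ≤ 6 ∧ (lapEnergy G = 6 →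
      Nonempty (G ≃g pineapple 4 3) ∨ Nonempty (G ≃g pineapple 4 4) ∨
        Nonempty (G ≃g diamond)) := by
    obtain ⟨k, P, h, hE⟩ := exists_pr G
    have hk : k + 1 ≤ 4 := by simpa using h.lt_card
    have h1 := F2_one_le G h
    have h2 := F2_zero_le G h univ
    have hth := F2_theta G P (2 * k / Fintype.card (Fin 4))
    have ht1 := F2_theta G P 1
    rw [Finset.compl_univ, Finset.sum_empty, Finset.card_univ] at h2
    rw [Fintype.card_fin] at h2 hth
    rw [hE, Fintype.card_fin]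
    have hk' : k = 0 ∨ k = 1 ∨ k = 2 ∨ k = 3 := by omega
    have hF0 : F2 G P 0 ≤ 2 * adjSum G := by
      unfold F2 adjSum
      rw [Finset.mul_sum]
      refine Finset.sum_le_sum fun u _ => ?_
      rw [Finset.mul_sum]
      refine Finset.sum_le_sum fun v _ => ?_
      split_ifs
      · have := (dd_bounds h u v).2
        linarith
      · simp
    rcases hk' with rfl | rfl | rfl | rfl
    · norm_num at h2 ⊢
      exact ⟨by linarith, fun h3 => by linarith⟩
    · norm_num at h1 h2 hth ht1 ⊢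
      exact ⟨by linarith, fun h3 => by linarith⟩
    · norm_num at h1 h2 hth ht1 ⊢
      refine ⟨by linarith, fun h3 => ?_⟩
      have hS : Shape G P := shape_of_eq G h (by rw [h3]; norm_num)
      obtain ⟨t, -, ht⟩ := Finset.exists_max_image univ (fun v => P v v) Finset.univ_nonempty
      have hdom : ∀ v, v ≠ t → G.Adj t v := fun v hv =>
        rigid_dom hG h hS (fun v => ht v (Finset.mem_univ v)) hv
      by_cases hst : ∃ u v : Fin 4, u ≠ t ∧ v ≠ t ∧ G.Adj u v
      · obtain ⟨u, v, hu, hv, huv⟩ := hst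
        exact s_graph G hdom hu hv huv
      · exfalso
        push Not at hst
        have hd1 : ∀ v, v ≠ t → G.degree v = 1 := by
          intro v hv
          rw [SimpleGraph.degree, Finset.card_eq_one]
          refine ⟨t, ?_⟩
          ext w
          rw [SimpleGraph.mem_neighborFinset, Finset.mem_singleton]
          refine ⟨fun hw => ?_, fun hw => ?_⟩
          · by_contra hwt
            exact hst v w hv hwt hw
          · rw [hw]; exact (hdom v hv).symm
        have hd2 : G.degree t = 3 := by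
          have : G.neighborFinset t = univ.erase t := by
            ext w
            rw [SimpleGraph.mem_neighborFinset, Finset.mem_erase]
            exact ⟨fun hw => ⟨hw.ne', Finset.mem_univ w⟩, fun hw => hdom w hw.1⟩
          rw [SimpleGraph.degree, this, Finset.card_erase_of_mem (Finset.mem_univ t),
            Finset.card_univ, Fintype.card_fin]
        have h4 := F2_zero_le G h {t}
        have h5 : ∑ v ∈ ({t} : Finset (Fin 4))ᶜ, (G.degree v : ℝ) = 3 := by
          have e1 : ∑ v ∈ ({t} : Finset (Fin 4))ᶜ, (G.degree v : ℝ)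
              = ∑ _v ∈ ({t} : Finset (Fin 4))ᶜ, (1 : ℝ) := by
            refine Finset.sum_congr rfl fun v hv => ?_
            rw [hd1 v (by simpa using hv)]
            norm_num
          rw [e1, Finset.sum_const, Finset.card_compl, Finset.card_singleton, Fintype.card_fin]
          norm_num
        have h6 : adjSum G = 6 := by
          rw [adjSum_eq_deg, ← Finset.add_sum_erase univ _ (Finset.mem_univ t), hd2]
          have e2 : univ.erase t = ({t} : Finset (Fin 4))ᶜ := by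
            ext w; simp
          rw [e2, h5]
          norm_num
        rw [h5, Finset.card_singleton] at h4
        norm_num at h4
        linarith
    · norm_num at hth ⊢
      have hA : adjSum G ≤ 12 ∧ ((∃ u v : Fin 4, u ≠ v ∧ ¬ G.Adj u v) → adjSum G < 12) := by
        have e1 : (12 : ℝ) = ∑ u : Fin 4, ∑ v : Fin 4, if u ≠ v then (1 : ℝ) else 0 := by
          simp only [Fin.sum_univ_four]
          simp
          norm_num
        have e3 : ∀ u v : Fin 4, (@ite ℝ (G.Adj u v) (Classical.propDecidable (G.Adj u v)) 1 0)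
            ≤ if u ≠ v then (1 : ℝ) else 0 := by
          intro u v
          by_cases h3 : G.Adj u v
          · rw [if_pos h3, if_pos h3.ne]
          · rw [if_neg h3]
            split_ifs <;> norm_num
        rw [e1]
        unfold adjSum
        refine ⟨Finset.sum_le_sum fun u _ => Finset.sum_le_sum fun v _ => e3 u v, ?_⟩
        rintro ⟨u, v, huv, hn⟩
        refine Finset.sum_lt_sum (fun u _ => Finset.sum_le_sum fun v _ => e3 u v)
          ⟨u, Finset.mem_univ u, Finset.sum_lt_sum (fun v _ => e3 u v) ⟨v, Finset.mem_univ v, ?_⟩⟩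
        rw [if_neg hn, if_pos huv]
        norm_num
      refine ⟨by linarith [hA.1], fun h3 => ?_⟩
      have hall : ∀ u v : Fin 4, u ≠ v → G.Adj u v := by
        intro u v huv
        by_contra hn
        have := hA.2 ⟨u, v, huv, hn⟩
        linarith
      exact s_graph G (t := 0) (fun v hv => hall 0 v hv.symm) (u := 1) (v := 2) (by decide)
        (by decide) (hall 1 2 (by decide))
  refine ⟨hup.1, hup.2, fun h => le_antisymm hup.1 ?_⟩
  have hlow : ∀ (H : SimpleGraph (Fin 4)) (Q : Matrix (Fin 4) (Fin 4) ℝ) (k : ℕ), IsPr Q k →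
      F2 H Q (2 * k / Fintype.card (Fin 4)) = 6 → Nonempty (G ≃g H) → 6 ≤ lapEnergy G := by
    rintro H Q k hQ hF ⟨f⟩
    have h3 := F2_le_lapEnergy G (hQ.reindex f.toEquiv)
    have h4 := F2_iso f Q (2 * k / Fintype.card (Fin 4))
    rw [hF] at h4
    exact h4 ▸ h3
  rcases h with h | h | h
  · obtain ⟨Q, hQ, hF⟩ := pineapple_low (n := 4) (k := 2) (by norm_num) (by norm_num)
    refine hlow _ Q 2 hQ ?_ h
    rw [Fintype.card_fin, hF]
    unfold Phi2
    norm_num
  · obtain ⟨Q, hQ, hF⟩ := pineapple_low (n := 4) (k := 3) (by norm_num) (by norm_num)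
    refine hlow _ Q 3 hQ ?_ h
    rw [Fintype.card_fin, hF]
    unfold Phi2
    norm_num
  · exact hlow _ sP 2 sP_pr sP_F2 h

end Pool.Agent.Helper8.PA
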