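import Pool.Agent.Helper8.PA.Upper
import Pool.Agent.Helper8.PA.Small
import Pool.Agent.LapEn.Pine
import Pool.Agent.LapEn.Iso

/-!
# FINAL: the maximum Laplacian energy of connected graphs on `n` vertices, all `n`
-/

open Finset Matrix LapEn

namespace Pool.Agent.Helper8.PA

/-- the energy is invariant under isomorphism (one inequality) -/
theorem lapEnergy_iso_le {n : ℕ} (hn : 1 ≤ n) (G H : SimpleGraph (Fin n)) [DecidableRel G.Adj]
    [DecidableRel H.Adj] (e : G ≃g H) : lapEnergy H ≤ lapEnergy G := by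
  have : Nonempty (Fin n) := ⟨⟨0, hn⟩⟩
  obtain ⟨k, P, hP, hE⟩ := exists_pr H
  have h1 := F2_le_lapEnergy G (hP.reindex e.toEquiv)
  have h2 := F2_iso e P (2 * k / Fintype.card (Fin n))
  rw [hE, ← h2]
  exact h1

theorem lapEnergy_iso {n : ℕ} (hn : 1 ≤ n) (G H : SimpleGraph (Fin n)) [DecidableRel G.Adj]
    [DecidableRel H.Adj] (e : G ≃g H) : lapEnergy G = lapEnergy H :=
  le_antisymm (lapEnergy_iso_le hn H G e.symm) (lapEnergy_iso_le hn G H e)

theorem bound_big {n : ℕ} (hn : 5 ≤ n) (G : SimpleGraph (Fin n)) [DecidableRel G.Adj]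
    (hG : G.Connected) :
    lapEnergy G ≤ Phi2 n (2 * n / 3) ∧
      (lapEnergy G = Phi2 n (2 * n / 3) → Nonempty (G ≃g pineapple n (2 * n / 3 + 1))) := by
  have : Nonempty (Fin n) := ⟨⟨0, by omega⟩⟩
  obtain ⟨k, P, h, hE, hL⟩ := exists_pr_loc G
  obtain ⟨h1, h2⟩ := upper hG h hL (by simpa using hn)
  rw [← hE] at h1 h2
  simp only [Fintype.card_fin] at h1 h2
  refine ⟨h1, fun he => ?_⟩
  obtain ⟨hk, T, g, hT, hg, hgg, rfl⟩ := h2 he
  have h3 := pend_iso hT hg hgg
  rw [Fintype.card_fin, hk] at h3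
  exact h3

theorem bound_one (G : SimpleGraph (Fin 1)) [DecidableRel G.Adj] :
    lapEnergy G = Phi2 1 0 ∧ Nonempty (G ≃g pineapple 1 1) := by
  have hno : ∀ u v : Fin 1, ¬ G.Adj u v := fun u v h => h.ne (Subsingleton.elim u v)
  have hno' : ∀ u v : Fin 1, ¬ (pineapple 1 1).Adj u v := fun u v h => h.ne (Subsingleton.elim u v)
  constructor
  · obtain ⟨k, P, h, hE⟩ := exists_pr G
    rw [hE]
    unfold F2 Phi2
    simp [hno]
  · exact ⟨⟨Equiv.refl _, fun {u v} => by simp [hno, hno']⟩⟩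

theorem bound_two (G : SimpleGraph (Fin 2)) [DecidableRel G.Adj] (hG : G.Connected) :
    lapEnergy G ≤ Phi2 2 1 ∧ Nonempty (G ≃g pineapple 2 2) := by
  have h01 : G.Adj 0 1 := by
    have h1 := hG.preconnected.degree_pos_of_nontrivial (0 : Fin 2)
    rw [G.degree_pos_iff_exists_adj] at h1
    obtain ⟨w, hw⟩ := h1
    have : w = 1 := by
      have := hw.ne
      fin_cases w
      · exact absurd rfl this
      · rfl
    rwa [this] at hw
  have hall : ∀ u v : Fin 2, G.Adj u v ↔ u ≠ v := by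
    intro u v
    fin_cases u <;> fin_cases v <;> simp [h01, h01.symm]
  constructor
  · obtain ⟨k, P, h, hE⟩ := exists_pr G
    have hk : k + 1 ≤ 2 := by simpa using h.lt_card
    have h1 := F2_one_le G h
    have h2 := F2_zero_le_card G h
    rw [hE, Fintype.card_fin]
    rw [Fintype.card_fin] at h2
    unfold Phi2
    have hk' : k = 0 ∨ k = 1 := by omega
    rcases hk' with rfl | rfl
    · norm_num at h2 ⊢
      linarith
    · norm_num at h1 ⊢
      linarith
  · refine ⟨⟨Equiv.refl _, fun {u v} => ?_⟩⟩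
    rw [hall]
    show (u ≠ v ∧ ((u.val < 2 ∧ v.val < 2) ∨ u.val = 0 ∨ v.val = 0)) ↔ u ≠ v
    exact ⟨fun h => h.1, fun h => ⟨h, Or.inl ⟨u.isLt, v.isLt⟩⟩⟩

theorem bound_three (G : SimpleGraph (Fin 3)) [DecidableRel G.Adj] :
    lapEnergy G ≤ Phi2 3 2 ∧ (lapEnergy G = Phi2 3 2 → Nonempty (G ≃g pineapple 3 3)) := by
  classical
  obtain ⟨k, P, h, hE⟩ := exists_pr G
  have hk : k + 1 ≤ 3 := by simpa using h.lt_card
  have h1 := F2_one_le G h
  have h2 := F2_zero_le_card G h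
  have hth := F2_theta G P (2 * k / Fintype.card (Fin 3))
  have ht1 := F2_theta G P 1
  have hPhi : Phi2 3 2 = 4 := by unfold Phi2; norm_num
  rw [hPhi, hE]
  rw [Fintype.card_fin] at h2 hth ⊢
  have hk' : k = 0 ∨ k = 1 ∨ k = 2 := by omega
  have hF0 : F2 G P 0 ≤ 2 * adjSum G := by
    unfold F2 adjSum
    rw [Finset.mul_sum]
    refine Finset.sum_le_sum fun u _ => ?_
    rw [Finset.mul_sum]
    refine Finset.sum_le_sum fun v _ => ?_
    split_ifs
    · have := (dd_bounds h u v).2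
      linarith
    · simp
  rcases hk' with rfl | rfl | rfl
  · norm_num at h2 ⊢
    constructor
    · linarith
    · intro h3; linarith
  · norm_num at h1 h2 hth ht1 ⊢
    constructor
    · linarith
    · intro h3; linarith
  · norm_num at hth ⊢
    have hA6 : adjSum G ≤ 6 := by
      unfold adjSum
      simp only [Fin.sum_univ_three, SimpleGraph.irrefl, if_false]
      split_ifs <;> norm_num
    have hA4 : ∀ u v : Fin 3, u ≠ v → ¬ G.Adj u v → adjSum G ≤ 4 := by
      intro u v huv hn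
      have hn' : ¬ G.Adj v u := fun h => hn h.symm
      unfold adjSum
      simp only [Fin.sum_univ_three, SimpleGraph.irrefl, if_false]
      fin_cases u <;> fin_cases v <;> simp at huv hn hn' <;> simp only [hn, hn', if_false] <;>
        split_ifs <;> norm_num
    refine ⟨by linarith, fun h3 => ?_⟩
    have hall : ∀ u v : Fin 3, G.Adj u v ↔ u ≠ v := by
      intro u v
      refine ⟨fun h => h.ne, fun huv => ?_⟩
      by_contra hcon
      have := hA4 u v huv hcon
      linarith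
    refine ⟨⟨Equiv.refl _, fun {u v} => ?_⟩⟩
    rw [hall]
    show (u ≠ v ∧ ((u.val < 3 ∧ v.val < 3) ∨ u.val = 0 ∨ v.val = 0)) ↔ u ≠ v
    exact ⟨fun h => h.1, fun h => ⟨h, Or.inl ⟨u.isLt, v.isLt⟩⟩⟩

theorem bound (n : ℕ) (hn : 1 ≤ n) (G : SimpleGraph (Fin n)) [DecidableRel G.Adj]
    (hG : G.Connected) :
    lapEnergy G ≤ Phi2 n (2 * n / 3) ∧
      (n ≠ 4 → lapEnergy G = Phi2 n (2 * n / 3) →
        Nonempty (G ≃g pineapple n (2 * n / 3 + 1))) := by
  rcases Nat.lt_or_ge n 5 with h | h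
  · interval_cases n
    · obtain ⟨h1, h2⟩ := bound_one G
      exact ⟨h1.le, fun _ _ => h2⟩
    · obtain ⟨h1, h2⟩ := bound_two G hG
      exact ⟨h1, fun _ _ => h2⟩
    · obtain ⟨h1, h2⟩ := bound_three G
      exact ⟨h1, fun _ => h2⟩
    · have h1 := (small4 G hG).1
      have hPhi : Phi2 4 2 = 6 := by unfold Phi2; norm_num
      exact ⟨h1.trans hPhi.ge, fun h => absurd rfl h⟩
  · obtain ⟨h1, h2⟩ := bound_big h G hG
    exact ⟨h1, fun _ => h2⟩

theorem main (n : ℕ) (hn : 1 ≤ n) :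
    (pineapple n (2 * n / 3 + 1)).Connected ∧
    lapEnergy (pineapple n (2 * n / 3 + 1)) = Phi2 n (2 * n / 3) ∧
    ∀ (G : SimpleGraph (Fin n)) [DecidableRel G.Adj], G.Connected →
      lapEnergy G ≤ lapEnergy (pineapple n (2 * n / 3 + 1)) ∧
      (n ≠ 4 → (lapEnergy G = lapEnergy (pineapple n (2 * n / 3 + 1)) ↔
        Nonempty (G ≃g pineapple n (2 * n / 3 + 1)))) := by
  have : Nonempty (Fin n) := ⟨⟨0, by omega⟩⟩
  have hc : (pineapple n (2 * n / 3 + 1)).Connected := pineapple_connected (by omega)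
  have heq : lapEnergy (pineapple n (2 * n / 3 + 1)) = Phi2 n (2 * n / 3) := by
    rcases Nat.lt_or_ge n 2 with h | h
    · interval_cases n
      exact (bound_one _).1
    · refine le_antisymm (bound n hn _ hc).1 ?_
      obtain ⟨P, hP, hF⟩ := pineapple_low (n := n) (k := 2 * n / 3) (by omega) (by omega)
      have hlow := F2_le_lapEnergy (pineapple n (2 * n / 3 + 1)) hP
      rwa [Fintype.card_fin, hF] at hlow
  refine ⟨hc, heq, fun G _ hG => ?_⟩
  obtain ⟨h1, h2⟩ := bound n hn G hG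
  rw [heq]
  refine ⟨h1, fun h4 => ⟨h2 h4, fun ⟨f⟩ => ?_⟩⟩
  rw [lapEnergy_iso hn G _ f, heq]

end Pool.Agent.Helper8.PA
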