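import Pool.Agent.LapEn.Num

/-!
# NUMA: comparison of the bounds with `Phi2 n (2 n / 3)` for `n ≥ 5`
-/

open LapEn

namespace Pool.Agent.Helper8.PA

theorem Phi2_numF {n : ℕ} (hn : 1 ≤ n) (j : ℕ) : Phi2 n j = 2 * (numF n j : ℝ) / n := by
  have hn0 : (n : ℝ) ≠ 0 := by
    have : n ≠ 0 := by omega
    exact_mod_cast this
  unfold Phi2 numF
  push_cast
  field_simp
  ring

theorem Phi2_five : Phi2 5 3 = 46 / 5 := by
  unfold Phi2
  norm_num

theorem Phi2_lt {n k : ℕ} (hn : 5 ≤ n) (hk : k < n) (hge : n ≤ 2 * k) (hne : k ≠ 2 * n / 3) :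
    Phi2 n k < Phi2 n (2 * n / 3) := by
  rcases Nat.lt_or_ge n 6 with h | h
  · obtain rfl : n = 5 := by omega
    obtain rfl : k = 4 := by omega
    have e : 2 * 5 / 3 = 3 := by norm_num
    rw [e, Phi2_five]
    unfold Phi2
    norm_num
  · exact num_lt' h hk.le hne

theorem low_lt {n k : ℕ} (hn : 5 ≤ n) (h : 2 * k < n) :
    2 * ((1 - 2 * (k : ℝ) / n) * (k * n)) + 2 * (k : ℝ) / n * (k * (k + 1))
      < Phi2 n (2 * n / 3) := by
  rcases Nat.lt_or_ge n 6 with h6 | h6
  · obtain rfl : n = 5 := by omega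
    have e : 2 * 5 / 3 = 3 := by norm_num
    rw [e, Phi2_five]
    have hk2 : k ≤ 2 := by omega
    interval_cases k <;> norm_num
  · have h1 := compl_lt (n := n) (K := n - k) h6 (by omega) (by omega)
    have h2 : ((n - k : ℕ) : ℝ) = n - k := by rw [Nat.cast_sub (by omega)]
    have hn0 : (n : ℝ) ≠ 0 := by
      have : n ≠ 0 := by omega
      exact_mod_cast this
    rw [h2] at h1
    have e : (2 - 2 * ((n : ℝ) - k) / n) * (((n : ℝ) - k - 1) * (n - k)) + 2 * ((n : ℝ) - (n - k))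
        = 2 * ((1 - 2 * (k : ℝ) / n) * (k * n)) + 2 * (k : ℝ) / n * (k * (k + 1)) := by
      field_simp
      ring
    rw [e] at h1
    exact h1

/-- `r k (k + 1) < numF n (2n/3)` for `k = n - r`, `4 r < n` -/
theorem high_num {n r : ℕ} (hn : 5 ≤ n) (h1 : 4 * r < n) (h2 : 1 ≤ r) :
    (r : ℤ) * (n - r) * (n - r + 1) < numF n ((2 * n / 3 : ℕ) : ℤ) := by
  rcases Nat.lt_or_ge n 12 with h12 | h12
  · have hr : r ≤ 2 := by omega
    interval_cases n <;> interval_cases r <;> first | omega | (unfold numF; norm_num)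
  · -- `r (n - r) (n - r + 1)` is at most the value at `r = n/4`
    have e1 : 64 * ((r : ℤ) * (n - r) * (n - r + 1)) ≤ 3 * (n : ℤ) ^ 2 * (3 * n + 4) := by
      have h1' : (4 : ℤ) * r ≤ n := by
        have : 4 * r ≤ n := h1.le
        exact_mod_cast this
      have h2' : (1 : ℤ) ≤ r := by exact_mod_cast h2
      have h12' : (12 : ℤ) ≤ n := by exact_mod_cast h12
      obtain ⟨x, hx⟩ : ∃ x : ℤ, x = n - 4 * r := ⟨_, rfl⟩
      have hx0 : 0 ≤ x := by omega
      have e2 : (n : ℤ) = 4 * r + x := by omega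
      rw [e2]
      have hr0 : (0 : ℤ) ≤ r := by omega
      have hxr : 0 ≤ x * r := mul_nonneg hx0 hr0
      have hxx : 0 ≤ x * x := mul_nonneg hx0 hx0
      have hxxr : 0 ≤ x * x * r := mul_nonneg hxx hr0
      have hxrr : 0 ≤ x * r * r := mul_nonneg hxr hr0
      have hxxx : 0 ≤ x * x * x := mul_nonneg hxx hx0
      nlinarith
    obtain ⟨q, hq⟩ : ∃ q, q = n / 3 := ⟨_, rfl⟩
    have hr : n = 3 * q ∨ n = 3 * q + 1 ∨ n = 3 * q + 2 := by omega
    have e3 : 3 * (n : ℤ) ^ 2 * (3 * n + 4) < 64 * numF n ((2 * n / 3 : ℕ) : ℤ) := by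
      rcases hr with h | h | h
      · have hs : 2 * n / 3 = 2 * q := by omega
        have hq2 : (4 : ℤ) ≤ q := by
          have : 4 ≤ q := by omega
          exact_mod_cast this
        rw [hs, h]
        unfold numF
        push_cast
        generalize (q : ℤ) = Q at *
        nlinarith [mul_nonneg (sq_nonneg Q) (by linarith : (0 : ℤ) ≤ Q - 4), sq_nonneg Q]
      · have hs : 2 * n / 3 = 2 * q := by omega
        have hq2 : (4 : ℤ) ≤ q := by
          have : 4 ≤ q := by omega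
          exact_mod_cast this
        rw [hs, h]
        unfold numF
        push_cast
        generalize (q : ℤ) = Q at *
        nlinarith [mul_nonneg (sq_nonneg Q) (by linarith : (0 : ℤ) ≤ Q - 4), sq_nonneg Q]
      · have hs : 2 * n / 3 = 2 * q + 1 := by omega
        have hq2 : (4 : ℤ) ≤ q := by
          have : 4 ≤ q := by omega
          exact_mod_cast this
        rw [hs, h]
        unfold numF
        push_cast
        generalize (q : ℤ) = Q at *
        nlinarith [mul_nonneg (sq_nonneg Q) (by linarith : (0 : ℤ) ≤ Q - 4), sq_nonneg Q]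
    linarith

theorem high_lt {n k : ℕ} (hn : 5 ≤ n) (h1 : 3 * n < 4 * k) (h2 : k < n) :
    (2 - 2 * (k : ℝ) / n) * (k * (k + 1)) < Phi2 n (2 * n / 3) := by
  have hn0 : (0 : ℝ) < n := by
    have : 0 < n := by omega
    exact_mod_cast this
  have h3 := high_num (n := n) (r := n - k) hn (by omega) (by omega)
  have h4 : ((n - k : ℕ) : ℤ) = n - k := by rw [Nat.cast_sub (by omega)]
  rw [h4] at h3
  have h5 : (((n : ℤ) - k) * (n - (n - k)) * (n - (n - k) + 1) : ℤ)
      = ((n : ℤ) - k) * (k * (k + 1)) := by ring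
  rw [h5] at h3
  have h6 : ((n : ℝ) - k) * (k * (k + 1)) < (numF n ((2 * n / 3 : ℕ) : ℤ) : ℝ) := by
    exact_mod_cast h3
  have h7 : Phi2 n (2 * n / 3) = 2 * (numF n ((2 * n / 3 : ℕ) : ℤ) : ℝ) / n :=
    Phi2_numF (by omega) _
  rw [h7, lt_div_iff₀ hn0]
  have h8 : (2 - 2 * (k : ℝ) / n) * (k * (k + 1)) * n = 2 * (((n : ℝ) - k) * (k * (k + 1))) := by
    field_simp
  rw [h8]
  linarith

end Pool.Agent.Helper8.PA
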