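import Pool.Agent.LapEn.Red
import Pool.Agent.Helper8.PA.Defs

/-!
# SPEC: the spectral projection satisfies the local inequality; its sum over all vertices
-/

open Finset Matrix LapEn

namespace Pool.Agent.Helper8.PA

variable {V : Type*} [Fintype V] [DecidableEq V]

theorem spec_diag (U : Matrix V V ℝ) (c : V → ℝ) (v : V) :
    (U * diagonal c * Uᵀ) v v = ∑ i, c i * U v i ^ 2 := by
  rw [Matrix.mul_apply]
  refine Finset.sum_congr rfl fun i _ => ?_
  rw [Matrix.mul_diagonal, Matrix.transpose_apply]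
  ring

theorem lap_diag (G : SimpleGraph V) [DecidableRel G.Adj] (v : V) :
    (G.lapMatrix ℝ) v v = (G.degree v : ℝ) := by
  rw [SimpleGraph.lapMatrix, Matrix.sub_apply, SimpleGraph.degMatrix,
    Matrix.diagonal_apply_eq, SimpleGraph.adjMatrix_apply]
  simp

theorem lap_sq_diag (G : SimpleGraph V) [DecidableRel G.Adj] (v : V) :
    (G.lapMatrix ℝ * G.lapMatrix ℝ) v v = (G.degree v : ℝ) ^ 2 + G.degree v := by
  rw [Matrix.mul_apply, ← Finset.add_sum_erase univ _ (Finset.mem_univ v), lap_diag]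
  have h1 : ∑ w ∈ univ.erase v, G.lapMatrix ℝ v w * G.lapMatrix ℝ w v
      = ∑ w ∈ univ.erase v, if G.Adj v w then (1 : ℝ) else 0 := by
    refine Finset.sum_congr rfl fun w hw => ?_
    have hne : v ≠ w := (Finset.ne_of_mem_erase hw).symm
    rw [SimpleGraph.lapMatrix, Matrix.sub_apply, Matrix.sub_apply, SimpleGraph.degMatrix,
      Matrix.diagonal_apply_ne _ hne, Matrix.diagonal_apply_ne _ hne.symm,
      SimpleGraph.adjMatrix_apply, SimpleGraph.adjMatrix_apply]
    by_cases h : G.Adj v w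
    · simp [h, h.symm]
    · have h' : ¬ G.Adj w v := fun h' => h h'.symm
      simp [h, h']
  have h2 : ∑ w, (if G.Adj v w then (1 : ℝ) else 0)
      = ∑ w ∈ univ.erase v, if G.Adj v w then (1 : ℝ) else 0 := by
    rw [← Finset.add_sum_erase univ _ (Finset.mem_univ v)]
    simp
  rw [h1, ← h2, lap_deg]
  ring

/-- the energy is the value of `F2` at a spectral projection, which satisfies `Loc` -/
theorem exists_pr_loc [Nonempty V] (G : SimpleGraph V) [DecidableRel G.Adj] :
    ∃ (k : ℕ) (P : Matrix V V ℝ), IsPr P k ∧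
      lapEnergy G = F2 G P (2 * k / Fintype.card V) ∧ Loc G P := by
  obtain ⟨U, h1, h2, h3⟩ := red_spec (G.posSemidef_lapMatrix ℝ).isHermitian
  set l : V → ℝ := (G.posSemidef_lapMatrix ℝ).isHermitian.eigenvalues with hl
  have hl0 : ∀ i, 0 ≤ l i := (G.posSemidef_lapMatrix ℝ).eigenvalues_nonneg
  set a : ℝ := 2 * (G.edgeFinset.card : ℝ) / (Fintype.card V : ℝ) with hadef
  have hn : (Fintype.card V : ℝ) ≠ 0 := by exact_mod_cast Fintype.card_ne_zero
  have ha : 0 ≤ a := by positivity
  have hna : (Fintype.card V : ℝ) * a = adjSum G := by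
    rw [adjSum_eq, hadef]; field_simp
  have hE : lapEnergy G = 2 * ∑ i, max (l i - a) 0 := by
    unfold lapEnergy
    apply red_abs
    have h4 := congrArg Matrix.trace h3
    rw [red_trace h2, trace_lapMatrix] at h4
    rw [Finset.sum_sub_distrib, Finset.sum_const, Finset.card_univ, nsmul_eq_mul, ← hadef, hna, h4,
      sub_self]
  set c : V → ℝ := fun i => if a < l i then 1 else 0 with hc
  have hcc : (fun i => c i * c i) = c := by
    funext i; simp only [hc]; split_ifs <;> simp
  set P : Matrix V V ℝ := U * diagonal c * Uᵀ with hP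
  have hsymm : ∀ u v, P u v = P v u := red_symm U c
  have hcl : (fun i => (c i / l i) * l i) = c := by
    funext i
    simp only [hc]
    split_ifs with h
    · have : l i ≠ 0 := (lt_of_le_of_lt ha h).ne'
      field_simp
    · simp
  have hPL : P = (U * diagonal (fun i => c i / l i) * Uᵀ) * G.lapMatrix ℝ := by
    rw [h3, red_mul h2, hcl]
  have hsumc : ∑ i, c i = ((Finset.univ.filter fun i => a < l i).card : ℝ) := by
    simp only [hc]
    rw [Finset.sum_boole]
  refine ⟨(Finset.univ.filter fun i => a < l i).card, P, ⟨hsymm, ?_, ?_, ?_⟩, ?_, ?_⟩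
  · intro u v
    have h := red_mul h2 c c
    rw [hcc] at h
    rw [← Matrix.mul_apply, hP, h]
  · have h := red_trace h2 c
    rw [← hsumc, ← h]
    rfl
  · intro u
    have h : P *ᵥ (fun _ => (1 : ℝ)) = 0 := by
      rw [hPL, ← Matrix.mulVec_mulVec, SimpleGraph.lapMatrix_mulVec_const_eq_zero,
        Matrix.mulVec_zero]
    have h' := congrFun h u
    simpa [Matrix.mulVec, dotProduct] using h'
  · have htr : (P * G.lapMatrix ℝ).trace = ∑ i, c i * l i := by
      rw [h3, hP, red_mul h2, red_trace h2]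
    rw [F2_theta, F2_zero_eq_trace G P hsymm, htr, hE, ← hna, ← hsumc]
    have : ∑ i, max (l i - a) 0 = ∑ i, (c i * l i - a * c i) := by
      refine Finset.sum_congr rfl fun i _ => ?_
      simp only [hc]
      split_ifs with h
      · rw [max_eq_left (by linarith)]; ring
      · rw [max_eq_right (by linarith)]; ring
    rw [this, Finset.sum_sub_distrib, ← Finset.mul_sum]
    field_simp
  · intro α μ hα0 hα1 hμ v
    have e1 : (G.degree v : ℝ) = ∑ i, l i * U v i ^ 2 := by
      rw [← lap_diag G v, ← spec_diag U l v, ← h3]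
    have e2 : (G.degree v : ℝ) ^ 2 + G.degree v = ∑ i, (l i * l i) * U v i ^ 2 := by
      rw [← lap_sq_diag G v, ← spec_diag U (fun i => l i * l i) v, ← red_mul h2, ← h3]
    have e3 : P v v = ∑ i, c i * U v i ^ 2 := spec_diag U c v
    have e4 : (P * G.lapMatrix ℝ) v v = ∑ i, (c i * l i) * U v i ^ 2 := by
      rw [← spec_diag U (fun i => c i * l i) v, ← red_mul h2, ← h3]
    rw [e2, e1, e3, e4, Finset.mul_sum, Finset.mul_sum, Finset.mul_sum, ← Finset.sum_sub_distrib,
      ← Finset.sum_sub_distrib, ← Finset.sum_add_distrib]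
    refine Finset.sum_le_sum fun i _ => ?_
    have hU := sq_nonneg (U v i)
    have key : α * l i - α ^ 2 / (4 * μ) * (l i * l i) ≤ μ * c i + (l i - c i * l i) := by
      simp only [hc]
      split_ifs with h
      · have e5 : μ - (α * l i - α ^ 2 / (4 * μ) * (l i * l i)) = (α * l i - 2 * μ) ^ 2 / (4 * μ) := by
          field_simp
          ring
        have e6 : 0 ≤ (α * l i - 2 * μ) ^ 2 / (4 * μ) := by positivity
        linarith
      · have e5 : 0 ≤ α ^ 2 / (4 * μ) * (l i * l i) :=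
          mul_nonneg (by positivity) (mul_self_nonneg _)
        have e6 : α * l i ≤ 1 * l i := mul_le_mul_of_nonneg_right hα1 (hl0 i)
        linarith
    have := mul_le_mul_of_nonneg_right key hU
    linarith

/-- the sum of the local inequalities; `e = k - degree` (truncated) -/
theorem loc_sum {P : Matrix V V ℝ} {k : ℕ} (G : SimpleGraph V) [DecidableRel G.Adj]
    (h : IsPr P k) (hL : Loc G P) :
    (k : ℝ) * (k + 1) * ((Fintype.card V : ℝ) - k - 1)
        - ∑ v, ((k - G.degree v : ℕ) : ℝ) * (((k - G.degree v : ℕ) : ℝ) + 1)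
      ≤ 2 * (k + 1) * (adjSum G - F2 G P 0 / 2) := by
  have hk : (0 : ℝ) < k + 1 := by positivity
  have hv : ∀ v, (k : ℝ) * (k + 1) - ((k - G.degree v : ℕ) : ℝ) * (((k - G.degree v : ℕ) : ℝ) + 1)
      ≤ 2 * (k + 1) * (((k : ℝ) + 1) / 2 * P v v
        + ((G.degree v : ℝ) - (P * G.lapMatrix ℝ) v v)) := by
    intro v
    set d := G.degree v with hd
    have hd0 : (0 : ℝ) ≤ d := Nat.cast_nonneg _
    rcases le_total d k with hdk | hdk
    · have h1 := hL 1 (((k : ℝ) + 1) / 2) zero_le_one le_rfl (by positivity) v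
      rw [← hd] at h1
      have e1 : ((k - d : ℕ) : ℝ) = k - d := by rw [Nat.cast_sub hdk]
      rw [e1]
      have h2 := mul_le_mul_of_nonneg_left h1 (by positivity : (0 : ℝ) ≤ 2 * (k + 1))
      have e2 : 2 * ((k : ℝ) + 1) * (1 * (d : ℝ) - 1 ^ 2 / (4 * (((k : ℝ) + 1) / 2)) * ((d : ℝ) ^ 2 + d))
          = k * (k + 1) - (k - d) * ((k - d) + 1) := by
        field_simp
        ring
      rw [e2] at h2
      exact h2
    · have e1 : ((k - d : ℕ) : ℝ) = 0 := by rw [Nat.sub_eq_zero_of_le hdk]; simp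
      rw [e1]
      have hdk' : (k : ℝ) ≤ d := by exact_mod_cast hdk
      have hd1 : (0 : ℝ) < d + 1 := by positivity
      have h1 := hL (((k : ℝ) + 1) / (d + 1)) (((k : ℝ) + 1) / 2) (by positivity)
        (by rw [div_le_one hd1]; linarith) (by positivity) v
      rw [← hd] at h1
      have e2 : ((k : ℝ) + 1) / (d + 1) * d
          - (((k : ℝ) + 1) / (d + 1)) ^ 2 / (4 * (((k : ℝ) + 1) / 2)) * ((d : ℝ) ^ 2 + d)
          = (k + 1) * d / (2 * (d + 1)) := by
        field_simp
        ring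
      rw [e2] at h1
      have e3 : (k : ℝ) / 2 ≤ (k + 1) * d / (2 * (d + 1)) := by
        rw [div_le_div_iff₀ (by norm_num) (by positivity)]
        nlinarith
      have h2 := mul_le_mul_of_nonneg_left (e3.trans h1) (by positivity : (0 : ℝ) ≤ 2 * (k + 1))
      linarith
  have hsum := Finset.sum_le_sum fun v (_ : v ∈ univ) => hv v
  have e1 : ∑ v, (P * G.lapMatrix ℝ) v v = F2 G P 0 / 2 := by
    rw [F2_zero_eq_trace G P h.symm]
    have : (P * G.lapMatrix ℝ).trace = ∑ v, (P * G.lapMatrix ℝ) v v := rfl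
    rw [this]; ring
  have s1 : ∑ v, ((k : ℝ) * (k + 1)
        - ((k - G.degree v : ℕ) : ℝ) * (((k - G.degree v : ℕ) : ℝ) + 1))
      = (Fintype.card V : ℝ) * ((k : ℝ) * (k + 1))
        - ∑ v, ((k - G.degree v : ℕ) : ℝ) * (((k - G.degree v : ℕ) : ℝ) + 1) := by
    rw [Finset.sum_sub_distrib, Finset.sum_const, Finset.card_univ, nsmul_eq_mul]
  have s2 : ∑ v, 2 * ((k : ℝ) + 1) * (((k : ℝ) + 1) / 2 * P v v
        + ((G.degree v : ℝ) - (P * G.lapMatrix ℝ) v v))
      = 2 * (k + 1) * (((k : ℝ) + 1) / 2 * k + (adjSum G - F2 G P 0 / 2)) := by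
    rw [← Finset.mul_sum, Finset.sum_add_distrib, ← Finset.mul_sum, Finset.sum_sub_distrib, h.tr,
      ← adjSum_eq_deg, e1]
  rw [s1, s2] at hsum
  linarith

end Pool.Agent.Helper8.PA
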