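import Pool.Agent.Helper8.PA.Brou
import Pool.Agent.Helper8.PA.Spec
import Pool.Agent.Helper8.PA.NumA
import Pool.Agent.Helper8.PA.Degs
import Pool.Agent.Helper8.PA.Rigid

/-!
# UPPER: the upper bound for connected graphs on `n ≥ 5` vertices
-/

open Finset Matrix LapEn

namespace Pool.Agent.Helper8.PA

variable {V : Type*} [Fintype V] [DecidableEq V]
variable {P : Matrix V V ℝ} {k : ℕ}

theorem F2_le_high (G : SimpleGraph V) (h : IsPr P k) {θ : ℝ} (h1 : 1 ≤ θ) (h2 : θ ≤ 2) :
    F2 G P θ ≤ (2 - θ) * (k * (k + 1)) := by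
  classical
  refine le_trans ?_ (mul_le_mul_of_nonneg_left (F2_one_le G h) (by linarith))
  unfold F2
  rw [Finset.mul_sum]
  refine Finset.sum_le_sum fun u _ => ?_
  rw [Finset.mul_sum]
  refine Finset.sum_le_sum fun v _ => ?_
  split_ifs
  · nlinarith [(dd_bounds h u v).2]
  · simp

theorem F2_zero_le_card (G : SimpleGraph V) [DecidableRel G.Adj] (h : IsPr P k) :
    F2 G P 0 ≤ 2 * ((k : ℝ) * Fintype.card V) := by
  have := F2_zero_le G h univ
  rw [Finset.compl_univ, Finset.sum_empty, Finset.card_univ] at this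
  linarith

/-- edges outside a set of `k` vertices -/
theorem edges_le (G : SimpleGraph V) [DecidableRel G.Adj] {R : Finset V} {k : ℕ} (hk : 1 ≤ k)
    (hR : Rᶜ.card = k) :
    2 * G.edgeFinset.card ≤ k * (k - 1) + 2 * ∑ v ∈ R, G.degree v := by
  classical
  set a : V → V → ℝ := fun u v => if G.Adj u v then 1 else 0 with ha
  have ha0 : ∀ u v, 0 ≤ a u v := fun u v => by simp only [ha]; split_ifs <;> norm_num
  have ha1 : ∀ u v, a u v ≤ 1 := fun u v => by simp only [ha]; split_ifs <;> norm_num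
  have has : ∀ u v, a u v = a v u := fun u v => by simp only [ha, G.adj_comm u v]
  have hdeg : ∀ v, (G.degree v : ℝ) = ∑ u, a v u := by
    intro v
    rw [← lap_deg G v]
  have h1 : 2 * (G.edgeFinset.card : ℝ) = ∑ u, ∑ v, a u v := by
    rw [← adjSum_eq, adjSum_eq_deg]
    exact Finset.sum_congr rfl fun u _ => hdeg u
  have h2 : ∑ u, ∑ v, a u v = ∑ u ∈ R, ∑ v, a u v
      + (∑ u ∈ Rᶜ, ∑ v ∈ R, a u v + ∑ u ∈ Rᶜ, ∑ v ∈ Rᶜ, a u v) := by
    rw [← Finset.sum_add_sum_compl R, ← Finset.sum_add_distrib]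
    congr 1
    refine Finset.sum_congr rfl fun u _ => ?_
    rw [← Finset.sum_add_sum_compl R]
  have h3 : ∑ u ∈ Rᶜ, ∑ v ∈ R, a u v ≤ ∑ u ∈ R, ∑ v, a u v := by
    rw [Finset.sum_comm]
    refine Finset.sum_le_sum fun u _ => ?_
    calc ∑ v ∈ Rᶜ, a v u = ∑ v ∈ Rᶜ, a u v := Finset.sum_congr rfl fun v _ => has v u
      _ ≤ ∑ v, a u v := Finset.sum_le_sum_of_subset_of_nonneg (Finset.subset_univ _)
          fun v _ _ => ha0 u v
  have h4 : ∑ u ∈ Rᶜ, ∑ v ∈ Rᶜ, a u v ≤ (k : ℝ) * (k - 1) := by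
    have : ∀ u ∈ Rᶜ, ∑ v ∈ Rᶜ, a u v ≤ (k : ℝ) - 1 := by
      intro u hu
      rw [← Finset.add_sum_erase Rᶜ _ hu]
      have e1 : a u u = 0 := by simp [ha]
      have e2 : ∑ v ∈ Rᶜ.erase u, a u v ≤ ∑ _v ∈ Rᶜ.erase u, (1 : ℝ) :=
        Finset.sum_le_sum fun v _ => ha1 u v
      rw [Finset.sum_const, nsmul_eq_mul, mul_one, Finset.card_erase_of_mem hu, hR,
        Nat.cast_sub hk] at e2
      rw [e1]
      simpa using e2
    calc ∑ u ∈ Rᶜ, ∑ v ∈ Rᶜ, a u v ≤ ∑ _u ∈ Rᶜ, ((k : ℝ) - 1) := Finset.sum_le_sum this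
      _ = (k : ℝ) * (k - 1) := by rw [Finset.sum_const, nsmul_eq_mul, hR]
  have h5 : ∑ u ∈ R, ∑ v, a u v = ((∑ v ∈ R, G.degree v : ℕ) : ℝ) := by
    rw [Nat.cast_sum]
    exact Finset.sum_congr rfl fun u _ => (hdeg u).symm
  have h6 : ((2 * G.edgeFinset.card : ℕ) : ℝ)
      ≤ ((k * (k - 1) + 2 * ∑ v ∈ R, G.degree v : ℕ) : ℝ) := by
    rw [Nat.cast_add, Nat.cast_mul, Nat.cast_mul, Nat.cast_mul, Nat.cast_sub hk]
    push_cast at h5 ⊢
    linarith
  exact_mod_cast h6

/-- `∑ (d - k)_+ ≤` sum of the other eigenvalues -/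
theorem gm_sum (G : SimpleGraph V) [DecidableRel G.Adj] (h : IsPr P k) :
    ∑ v, ((G.degree v - k : ℕ) : ℝ) ≤ adjSum G - F2 G P 0 / 2 := by
  classical
  set U : Finset V := univ.filter fun v => k ≤ G.degree v with hU
  have h1 := F2_zero_le G h U
  have h2 : adjSum G = ∑ v ∈ U, (G.degree v : ℝ) + ∑ v ∈ Uᶜ, (G.degree v : ℝ) := by
    rw [adjSum_eq_deg, Finset.sum_add_sum_compl]
  have h3 : ∑ v, ((G.degree v - k : ℕ) : ℝ) = ∑ v ∈ U, (G.degree v : ℝ) - U.card * k := by
    rw [← Finset.sum_add_sum_compl U]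
    have e1 : ∑ v ∈ Uᶜ, ((G.degree v - k : ℕ) : ℝ) = 0 := by
      refine Finset.sum_eq_zero fun v hv => ?_
      have : ¬ k ≤ G.degree v := fun hk => (Finset.mem_compl.1 hv) (by simp [hU, hk])
      rw [Nat.sub_eq_zero_of_le (by omega)]
      simp
    have e2 : ∑ v ∈ U, ((G.degree v - k : ℕ) : ℝ) = ∑ v ∈ U, ((G.degree v : ℝ) - k) := by
      refine Finset.sum_congr rfl fun v hv => ?_
      rw [Nat.cast_sub (Finset.mem_filter.1 hv).2]
    rw [e1, e2, Finset.sum_sub_distrib, Finset.sum_const, nsmul_eq_mul, add_zero]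
  linarith

theorem upper [Nonempty V] {G : SimpleGraph V} [DecidableRel G.Adj] (hG : G.Connected)
    (h : IsPr P k) (hL : Loc G P) (hn : 5 ≤ Fintype.card V) :
    F2 G P (2 * k / Fintype.card V) ≤ Phi2 (Fintype.card V) (2 * Fintype.card V / 3) ∧
    (F2 G P (2 * k / Fintype.card V) = Phi2 (Fintype.card V) (2 * Fintype.card V / 3) →
      k = 2 * Fintype.card V / 3 ∧ PendEx G k) := by
  classical
  have hlt : k < Fintype.card V := h.lt_card
  have hF1 := F2_one_le G h
  have hF0 := F2_zero_le_card G h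
  have hGM := gm_sum G h
  have hLS := loc_sum G h hL
  have hA : adjSum G = 2 * (G.edgeFinset.card : ℝ) := adjSum_eq G
  have hsumd : ∑ v, G.degree v = 2 * G.edgeFinset.card := G.sum_degrees_eq_twice_card_edges
  have hth := F2_theta G P (2 * k / Fintype.card V)
  have ht1 := F2_theta G P 1
  rw [one_mul] at ht1
  set n := Fintype.card V with hnn
  have hn0 : (0 : ℝ) < n := by
    have : 0 < n := by omega
    exact_mod_cast this
  set θ : ℝ := 2 * (k : ℝ) / n with hθ
  have hnθ : (n : ℝ) * θ = 2 * k := by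
    rw [hθ]; field_simp
  have hkn : (k : ℝ) < n := by exact_mod_cast hlt
  have hk0 : (0 : ℝ) ≤ k := Nat.cast_nonneg _
  have hθ0 : 0 ≤ θ := by positivity
  have hθ2 : θ ≤ 2 := by
    rw [hθ, div_le_iff₀ hn0]; linarith
  rcases Nat.lt_or_ge (2 * k) n with hlow | hhigh
  · -- `2 k < n`
    have h1 := low_lt hn hlow
    have hθ1 : θ ≤ 1 := by
      have : 2 * (k : ℝ) < n := by exact_mod_cast hlow
      rw [hθ, div_le_iff₀ hn0]; linarith
    have h2 : F2 G P θ = (1 - θ) * F2 G P 0 + θ * F2 G P 1 := by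
      rw [hth, ht1]; ring
    have h3 : F2 G P θ < Phi2 n (2 * n / 3) := by
      rw [h2]
      have e1 := mul_le_mul_of_nonneg_left hF0 (by linarith : 0 ≤ 1 - θ)
      have e2 := mul_le_mul_of_nonneg_left hF1 hθ0
      refine lt_of_le_of_lt (add_le_add e1 e2) (lt_of_eq_of_lt ?_ h1)
      ring
    exact ⟨h3.le, fun he => absurd he h3.ne⟩
  · have hθ1 : 1 ≤ θ := by
      have : (n : ℝ) ≤ 2 * k := by exact_mod_cast hhigh
      rw [hθ, le_div_iff₀ hn0]; linarith
    rcases Nat.lt_or_ge (3 * n) (4 * k) with h34 | h34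
    · have h1 := F2_le_high G h hθ1 hθ2
      have h2 := high_lt hn h34 hlt
      have h3 := lt_of_le_of_lt h1 h2
      exact ⟨h3.le, fun he => absurd he h3.ne⟩
    · obtain ⟨r, hr⟩ : ∃ r, r = n - k := ⟨_, rfl⟩
      have hnkr : n = k + r := by omega
      have hr2 : 2 ≤ r := by omega
      have hrk : r ≤ k := by omega
      have hk3r : k ≤ 3 * r := by omega
      have hnr : (n : ℝ) = k + r := by exact_mod_cast hnkr
      have hr2' : (2 : ℝ) ≤ r := by exact_mod_cast hr2
      have hPhi : Phi2 n k = (2 - θ) * (k * (k + 1)) - 2 * (θ - 1) * ((r : ℝ) - 1) := by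
        unfold Phi2
        rw [← hθ, hnr]; ring
      have hle : Phi2 n k ≤ Phi2 n (2 * n / 3) := by
        by_cases hk : k = 2 * n / 3
        · rw [← hk]
        · exact (Phi2_lt hn hlt hhigh hk).le
      rcases Nat.lt_or_ge (2 * G.edgeFinset.card) (k * (k + 1) + 2 * (r - 1)) with hm | hm
      · -- few edges
        have hd : ∀ v, 1 ≤ G.degree v := by
          intro v
          have : Nontrivial V := Fintype.one_lt_card_iff_nontrivial.1 (by omega)
          exact hG.preconnected.degree_pos_of_nontrivial v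
        have hD := degs (V := V) (k := k) (r := r) (m := G.edgeFinset.card)
          (d := fun v => G.degree v) (s := adjSum G - F2 G P 0 / 2) (by omega) hr2 hrk hk3r hd hsumd
          (fun R hR => edges_le G (by omega) (by rw [Finset.card_compl, hR]; omega)) hm hGM
          (by
            have : (n : ℝ) - k - 1 = r - 1 := by rw [hnr]; ring
            rw [this] at hLS
            exact hLS)
        have h2r : 2 * (r : ℝ) / (k + r) = 2 - θ := by
          rw [hθ, hnr]
          have : (k : ℝ) + r ≠ 0 := by rw [← hnr]; exact hn0.ne'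
          field_simp
          ring
        rw [h2r] at hD
        have h3 : F2 G P θ < Phi2 n k := by
          rw [hth, hPhi, hA]
          rw [hA] at hD
          nlinarith
        have h4 := lt_of_lt_of_le h3 hle
        exact ⟨h4.le, fun he => absurd he h4.ne⟩
      · -- many edges
        have hm' : (k : ℝ) * (k + 1) + 2 * ((r : ℝ) - 1) ≤ adjSum G := by
          rw [hA]
          have e1 : ((k * (k + 1) + 2 * (r - 1) : ℕ) : ℝ) ≤ ((2 * G.edgeFinset.card : ℕ) : ℝ) := by
            exact_mod_cast hm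
          rw [Nat.cast_add, Nat.cast_mul, Nat.cast_mul, Nat.cast_sub (by omega)] at e1
          push_cast at e1
          linarith
        have h2 : F2 G P θ = F2 G P 1 - (θ - 1) * adjSum G := by
          rw [hth, ht1]; ring
        have h3 := mul_le_mul_of_nonneg_left hm' (by linarith : 0 ≤ θ - 1)
        have h4 : F2 G P θ ≤ Phi2 n k := by
          rw [h2, hPhi]
          linarith
        refine ⟨h4.trans hle, fun he => ?_⟩
        have hk : k = 2 * n / 3 := by
          by_contra hk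
          have := Phi2_lt hn hlt hhigh hk
          linarith
        have he' : F2 G P θ = Phi2 n k := by rw [he, ← hk]
        rw [h2, hPhi] at he'
        have h5 : F2 G P 1 = (k : ℝ) * (k + 1) := by
          refine le_antisymm hF1 ?_
          linarith
        have hθ1' : 1 < θ := by
          have : n < 2 * k := by omega
          have : (n : ℝ) < 2 * k := by exact_mod_cast this
          rw [hθ, lt_div_iff₀ hn0]; linarith
        have h6 : adjSum G = (k : ℝ) * (k + 1) + 2 * ((r : ℝ) - 1) := by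
          have e1 : (θ - 1) * adjSum G = (θ - 1) * ((k : ℝ) * (k + 1) + 2 * ((r : ℝ) - 1)) := by
            rw [h5] at he'
            linarith
          exact mul_left_cancel₀ (sub_pos.2 hθ1').ne' e1
        refine ⟨hk, rigid_pend hG h (shape_of_eq G h h5) (by omega) (by omega) ?_ ?_⟩
        · rw [h6, ← hnn, hnr]; ring
        · rw [← hnn]
          have e1 : F2 G P 0 = (k : ℝ) * (k + 1) + adjSum G := by linarith
          rw [e1, h6] at hGM
          rw [hnr]
          linarith

end Pool.Agent.Helper8.PA
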